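import Pool.Agent.Helper18_Helly.Defs

set_option autoImplicit false

namespace Pool.Agent.Helper18_Helly

universe u

variable {U : Type u}

theorem subset_hull (C : Set (Set U)) (S : Set U) : S ⊆ hull C S :=
  Set.subset_sInter fun _ hA => hA.2

theorem hull_mono (C : Set (Set U)) {S T : Set U} (h : S ⊆ T) : hull C S ⊆ hull C T := by
  intro x hx A hA
  exact hx A ⟨hA.1, h.trans hA.2⟩

theorem not_mem_core_iff (C : Set (Set U)) (σ : ℕ) (S : Set U) (x : U) :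
    x ∉ core C σ S ↔ ∃ A ∈ C, x ∉ A ∧ (S \ A).encard ≤ σ := by
  constructor
  · intro h
    simp only [core, Set.mem_sInter, Set.mem_ofPred_eq, not_forall] at h
    obtain ⟨H, ⟨M, hM, hMσ, rfl⟩, hx⟩ := h
    simp only [hull, Set.mem_sInter, Set.mem_ofPred_eq, not_forall] at hx
    obtain ⟨A, ⟨hA, hSA⟩, hxA⟩ := hx
    refine ⟨A, hA, hxA, (Set.encard_le_encard ?_).trans hMσ⟩
    intro y hy
    by_contra hyM
    exact hy.2 (hSA ⟨hy.1, hyM⟩)
  · rintro ⟨A, hA, hxA, hS⟩ hx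
    have h1 := hx (hull C (S \ (S \ A))) ⟨S \ A, Set.diff_subset, hS, rfl⟩
    exact hxA (h1 A ⟨hA, by
      intro y hy
      by_contra hyA
      exact hy.2 ⟨hy.1, hyA⟩⟩)

theorem core_eq_empty_iff (C : Set (Set U)) (σ : ℕ) (S : Set U) :
    core C σ S = ∅ ↔ ∀ x, ∃ A ∈ C, x ∉ A ∧ (S \ A).encard ≤ σ := by
  rw [Set.eq_empty_iff_forall_notMem]
  exact forall_congr' fun x => not_mem_core_iff C σ S x

theorem core_empty_mono {C : Set (Set U)} {σ : ℕ} {S T : Set U} (hTS : T ⊆ S) (h : core C σ S = ∅) :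
    core C σ T = ∅ := by
  rw [core_eq_empty_iff] at h ⊢
  intro x
  obtain ⟨A, hA, hx, hS⟩ := h x
  exact ⟨A, hA, hx, (Set.encard_le_encard (Set.diff_subset_diff_left hTS)).trans hS⟩

theorem exists_subset_encard {S : Set U} {n : ℕ} (h : (n : ℕ∞) ≤ S.encard) :
    ∃ T ⊆ S, T.encard = n := Set.exists_subset_encard_eq h

/-- `n ≤ h(σ)` exactly when some set of `n` points has an empty core. -/
theorem le_helly_iff {X : Set U} {C : Set (Set U)} (h0 : ∅ ∈ C) {σ n : ℕ} :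
    (n : ℕ∞) ≤ helly X C σ ↔ ∃ S ⊆ X, S.encard = n ∧ core C σ S = ∅ := by
  constructor
  · intro h
    rcases Nat.eq_zero_or_pos n with hn | hn
    · subst hn
      refine ⟨∅, Set.empty_subset _, by simp, ?_⟩
      rw [core_eq_empty_iff]
      intro x
      exact ⟨∅, h0, Set.notMem_empty x, by simp⟩
    · obtain ⟨m, rfl⟩ := Nat.exists_eq_add_of_le' hn
      by_contra hcon
      push Not at hcon
      have hm : helly X C σ ≤ (m : ℕ∞) := by
        refine sInf_le ⟨m, rfl, ?_⟩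
        intro S hS hcard
        obtain ⟨T, hTS, hT⟩ := exists_subset_encard (S := S) (n := m + 1) (by exact_mod_cast hcard)
        by_contra hne
        rw [Set.not_nonempty_iff_eq_empty] at hne
        have := hcon T (hTS.trans hS) hT
        rw [core_empty_mono hTS hne] at this
        exact Set.not_nonempty_empty this
      have := h.trans hm
      norm_cast at this
      omega
  · rintro ⟨S, hS, hcard, hcore⟩
    refine le_sInf ?_
    rintro k ⟨m, rfl, hm⟩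
    by_contra hlt
    push Not at hlt
    have hmn : m < n := by exact_mod_cast hlt
    have h1 := hm S hS (by rw [hcard]; exact_mod_cast hmn)
    rw [hcore] at h1
    exact Set.not_nonempty_empty h1

theorem le_helly_of_infinite {X : Set U} {C : Set (Set U)} (h0 : ∅ ∈ C) {σ : ℕ} {N : ℕ∞}
    (h : ∀ n : ℕ, (n : ℕ∞) ≤ N → ∃ S ⊆ X, S.encard = n ∧ core C σ S = ∅) : N ≤ helly X C σ := by
  refine ENat.forall_natCast_le_iff_le.1 ?_
  intro n hn
  exact (le_helly_iff h0).2 (h n hn)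

theorem helly_le {X : Set U} {C : Set (Set U)} (h0 : ∅ ∈ C) {σ : ℕ} {N : ℕ∞}
    (h : ∀ S ⊆ X, S.Finite → core C σ S = ∅ → S.encard ≤ N) : helly X C σ ≤ N := by
  refine ENat.forall_natCast_le_iff_le.1 ?_
  intro n hn
  obtain ⟨S, hS, hcard, hcore⟩ := (le_helly_iff h0).1 hn
  rw [← hcard]
  exact h S hS (Set.finite_of_encard_eq_coe hcard) hcore

theorem empty_mem_alignedSum {X₁ X₂ : Set U} {C₁ C₂ : Set (Set U)} (h₁ : ∅ ∈ C₁) (h₂ : ∅ ∈ C₂) :
    ∅ ∈ alignedSum X₁ C₁ X₂ C₂ := ⟨∅, h₁, ∅, h₂, by simp⟩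

/-- The core of the aligned sum: a set of points of `X₁ ∪ X₂` has an empty core iff every point is
missed on one of the two sides. -/
theorem core_sum_eq_empty_iff {X₁ X₂ : Set U} {C₁ C₂ : Set (Set U)} (h₁ : IsAligned X₁ C₁)
    (h₂ : IsAligned X₂ C₂) {σ : ℕ} {T : Set U} (hT : T ⊆ X₁ ∪ X₂) :
    core (alignedSum X₁ C₁ X₂ C₂) σ T = ∅ ↔ ∀ x ∈ X₁ ∪ X₂,
      (x ∈ X₁ ∧ ∃ A ∈ C₁, x ∉ A ∧ ((T ∩ X₁) \ A).encard ≤ σ) ∨
      (x ∈ X₂ ∧ ∃ B ∈ C₂, x ∉ B ∧ ((T ∩ X₂) \ B).encard ≤ σ) := by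
  rw [core_eq_empty_iff]
  constructor
  · intro h x hx
    obtain ⟨D, ⟨A, hA, B, hB, rfl⟩, hxD, hTD⟩ := h x
    have hA' : ((T ∩ X₁) \ A).encard ≤ σ := by
      refine (Set.encard_le_encard ?_).trans hTD
      rintro y ⟨⟨hyT, hy1⟩, hyA⟩
      refine ⟨hyT, ?_⟩
      rintro ((⟨h1, -⟩ | ⟨-, h2⟩) | ⟨h3, -⟩)
      · exact hyA h1
      · exact h2 hy1
      · exact hyA h3
    have hB' : ((T ∩ X₂) \ B).encard ≤ σ := by
      refine (Set.encard_le_encard ?_).trans hTD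
      rintro y ⟨⟨hyT, hy1⟩, hyB⟩
      refine ⟨hyT, ?_⟩
      rintro ((⟨-, h1⟩ | ⟨h2, -⟩) | ⟨-, h3⟩)
      · exact h1 hy1
      · exact hyB h2
      · exact hyB h3
    by_cases hx1 : x ∈ X₁
    · by_cases hx2 : x ∈ X₂
      · by_cases hxA : x ∈ A
        · right
          refine ⟨hx2, B, hB, ?_, hB'⟩
          intro hxB
          exact hxD (Or.inr ⟨hxA, hxB⟩)
        · left
          exact ⟨hx1, A, hA, hxA, hA'⟩
      · left
        refine ⟨hx1, A, hA, ?_, hA'⟩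
        intro hxA
        exact hxD (Or.inl (Or.inl ⟨hxA, hx2⟩))
    · have hx2 : x ∈ X₂ := hx.resolve_left hx1
      right
      refine ⟨hx2, B, hB, ?_, hB'⟩
      intro hxB
      exact hxD (Or.inl (Or.inr ⟨hxB, hx1⟩))
  · intro h x
    by_cases hx : x ∈ X₁ ∪ X₂
    · rcases h x hx with ⟨hx1, A, hA, hxA, hTA⟩ | ⟨hx2, B, hB, hxB, hTB⟩
      · refine ⟨_, ⟨A, hA, X₂, h₂.self_mem, rfl⟩, ?_, (Set.encard_le_encard ?_).trans hTA⟩
        · rintro ((⟨h1, -⟩ | ⟨-, h2⟩) | ⟨h3, -⟩)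
          · exact hxA h1
          · exact h2 hx1
          · exact hxA h3
        · rintro y ⟨hyT, hyD⟩
          have hy1 : y ∈ X₁ := by
            by_contra hy1
            have hy2 : y ∈ X₂ := (hT hyT).resolve_left hy1
            exact hyD (Or.inl (Or.inr ⟨hy2, hy1⟩))
          refine ⟨⟨hyT, hy1⟩, ?_⟩
          intro hyA
          by_cases hy2 : y ∈ X₂
          · exact hyD (Or.inr ⟨hyA, hy2⟩)
          · exact hyD (Or.inl (Or.inl ⟨hyA, hy2⟩))
      · refine ⟨_, ⟨X₁, h₁.self_mem, B, hB, rfl⟩, ?_, (Set.encard_le_encard ?_).trans hTB⟩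
        · rintro ((⟨-, h1⟩ | ⟨h2, -⟩) | ⟨-, h3⟩)
          · exact h1 hx2
          · exact hxB h2
          · exact hxB h3
        · rintro y ⟨hyT, hyD⟩
          have hy2 : y ∈ X₂ := by
            by_contra hy2
            have hy1 : y ∈ X₁ := (hT hyT).resolve_right hy2
            exact hyD (Or.inl (Or.inl ⟨hy1, hy2⟩))
          refine ⟨⟨hyT, hy2⟩, ?_⟩
          intro hyB
          by_cases hy1 : y ∈ X₁
          · exact hyD (Or.inr ⟨hy1, hyB⟩)
          · exact hyD (Or.inl (Or.inr ⟨hyB, hy1⟩))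
    · refine ⟨_, ⟨X₁, h₁.self_mem, X₂, h₂.self_mem, rfl⟩, ?_, ?_⟩
      · rintro ((⟨h1, -⟩ | ⟨h2, -⟩) | ⟨h3, -⟩)
        · exact hx (Or.inl h1)
        · exact hx (Or.inr h2)
        · exact hx (Or.inl h3)
      · have : T \ (X₁ \ X₂ ∪ X₂ \ X₁ ∪ X₁ ∩ X₂) = ∅ := by
          ext y
          simp only [Set.mem_diff, Set.mem_union, Set.mem_inter_iff, Set.mem_empty_iff_false, iff_false,
            not_and, not_not]
          intro hy
          rcases hT hy with h1 | h1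
          · by_cases h2 : y ∈ X₂ <;> tauto
          · by_cases h2 : y ∈ X₁ <;> tauto
        rw [this]
        simp

end Pool.Agent.Helper18_Helly
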