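import Mathlib

set_option autoImplicit false

namespace Pool.Agent.Helper18_Helly

universe u

variable {U : Type u}

/-- `(X, C)` is an aligned space: `C` is a family of subsets of `X` containing `∅` and `X`, closed
under intersections and under unions of chains. -/
structure IsAligned (X : Set U) (C : Set (Set U)) : Prop where
  subset : ∀ A ∈ C, A ⊆ X
  empty_mem : ∅ ∈ C
  self_mem : X ∈ C
  sInter_mem : ∀ S : Set (Set U), S ⊆ C → S.Nonempty → ⋂₀ S ∈ C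
  sUnion_mem : ∀ S : Set (Set U), S ⊆ C → S.Nonempty → IsChain (· ⊆ ·) S → ⋃₀ S ∈ C

/-- The hull of `S`: the intersection of the convex sets containing `S`. -/
def hull (C : Set (Set U)) (S : Set U) : Set U := ⋂₀ {A | A ∈ C ∧ S ⊆ A}

/-- The `σ`-core of `S`: the intersection of the hulls of `S \ M` over `M ⊆ S`, `|M| ≤ σ`. -/
def core (C : Set (Set U)) (σ : ℕ) (S : Set U) : Set U :=
  ⋂₀ {H | ∃ M : Set U, M ⊆ S ∧ M.encard ≤ σ ∧ H = hull C (S \ M)}

/-- The `σ`-Helly number: the infimum of the natural numbers `n` such that every `S ⊆ X` with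
`|S| ≥ n + 1` has a nonempty `σ`-core (`⊤` if there is none). -/
noncomputable def helly (X : Set U) (C : Set (Set U)) (σ : ℕ) : ℕ∞ :=
  sInf {k | ∃ n : ℕ, k = n ∧ ∀ S : Set U, S ⊆ X → (n : ℕ∞) + 1 ≤ S.encard → (core C σ S).Nonempty}

/-- The family of convex sets of the aligned sum of `(X₁, C₁)` and `(X₂, C₂)`. -/
def alignedSum (X₁ : Set U) (C₁ : Set (Set U)) (X₂ : Set U) (C₂ : Set (Set U)) : Set (Set U) :=
  {D | ∃ A ∈ C₁, ∃ B ∈ C₂, D = (A \ X₂) ∪ (B \ X₁) ∪ (A ∩ B)}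

/-- There are aligned spaces with `σ`-Helly numbers `n₁` and `n₂` whose aligned sum has `σ`-Helly
number `n`. -/
def IsValue (σ : ℕ) (n₁ n₂ n : ℕ∞) : Prop :=
  ∃ (U : Type u) (X₁ X₂ : Set U) (C₁ C₂ : Set (Set U)), IsAligned X₁ C₁ ∧ IsAligned X₂ C₂ ∧
    helly X₁ C₁ σ = n₁ ∧ helly X₂ C₂ σ = n₂ ∧ helly (X₁ ∪ X₂) (alignedSum X₁ C₁ X₂ C₂) σ = n

end Pool.Agent.Helper18_Helly
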