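import Pool.Agent.Helper18_Helly.Misc

set_option autoImplicit false

namespace Pool.Agent.Helper18_Helly

universe u

theorem IsValue.symm {σ : ℕ} {n₁ n₂ n : ℕ∞} (h : IsValue.{u} σ n₁ n₂ n) : IsValue.{u} σ n₂ n₁ n := by
  obtain ⟨U, X₁, X₂, C₁, C₂, a, b, c, d, e⟩ := h
  exact ⟨U, X₂, X₁, C₂, C₁, b, a, d, c, by rw [helly_sum_comm]; exact e⟩

/-- The points of the examples. -/
inductive Pt : Type u
  | a (n : ℕ) : Pt
  | f (i n : ℕ) : Pt
  | w (n : ℕ) : Pt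
  | p : Pt
  | q (i : ℕ) : Pt

open Pt

theorem encard_seg (m : ℕ∞) : {n : ℕ | (n : ℕ∞) < m}.encard = m := by
  induction m using ENat.recTopCoe with
  | top =>
    have : {n : ℕ | (n : ℕ∞) < ⊤} = Set.univ := by
      ext n
      simp
    rw [this, Set.encard_univ]
    simp
  | coe m =>
    have : {n : ℕ | (n : ℕ∞) < m} = (Finset.range m : Set ℕ) := by
      ext n
      simp
    rw [this, Set.encard_coe_eq_coe_finsetCard, Finset.card_range]

/-- The points `a n`, `n < m`. -/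
def sA (m : ℕ∞) : Set Pt.{u} := Pt.a '' {n : ℕ | (n : ℕ∞) < m}

/-- The points `f i n`, `n < m`. -/
def sF (i : ℕ) (m : ℕ∞) : Set Pt.{u} := Pt.f i '' {n : ℕ | (n : ℕ∞) < m}

/-- The points `w n`, `n < m`. -/
def sW (m : ℕ∞) : Set Pt.{u} := Pt.w '' {n : ℕ | (n : ℕ∞) < m}

theorem encard_sA (m : ℕ∞) : (sA m).encard = m := by
  rw [sA, Function.Injective.encard_image (fun x y h => by cases h; rfl), encard_seg]

theorem encard_sF (i : ℕ) (m : ℕ∞) : (sF i m).encard = m := by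
  rw [sF, Function.Injective.encard_image (fun x y h => by cases h; rfl), encard_seg]

theorem encard_sW (m : ℕ∞) : (sW m).encard = m := by
  rw [sW, Function.Injective.encard_image (fun x y h => by cases h; rfl), encard_seg]

theorem sA_mono {m m' : ℕ∞} (h : m ≤ m') : sA m ⊆ sA m' := by
  rintro _ ⟨n, hn, rfl⟩
  exact ⟨n, lt_of_lt_of_le hn h, rfl⟩

@[simp] theorem p_notMem_sA (m : ℕ∞) : Pt.p ∉ sA m := by rintro ⟨n, -, h⟩; cases h
@[simp] theorem p_notMem_sF (i : ℕ) (m : ℕ∞) : Pt.p ∉ sF i m := by rintro ⟨n, -, h⟩; cases h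
@[simp] theorem p_notMem_sW (m : ℕ∞) : Pt.p ∉ sW m := by rintro ⟨n, -, h⟩; cases h
@[simp] theorem q_notMem_sA (i : ℕ) (m : ℕ∞) : Pt.q i ∉ sA m := by rintro ⟨n, -, h⟩; cases h
@[simp] theorem q_notMem_sF (j i : ℕ) (m : ℕ∞) : Pt.q j ∉ sF i m := by rintro ⟨n, -, h⟩; cases h
@[simp] theorem q_notMem_sW (i : ℕ) (m : ℕ∞) : Pt.q i ∉ sW m := by rintro ⟨n, -, h⟩; cases h
@[simp] theorem f_notMem_sA (i n : ℕ) (m : ℕ∞) : Pt.f i n ∉ sA m := by rintro ⟨n, -, h⟩; cases h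
@[simp] theorem w_notMem_sA (n : ℕ) (m : ℕ∞) : Pt.w n ∉ sA m := by rintro ⟨n, -, h⟩; cases h
@[simp] theorem w_notMem_sF (i n : ℕ) (m : ℕ∞) : Pt.w n ∉ sF i m := by rintro ⟨n, -, h⟩; cases h
@[simp] theorem a_notMem_sF (i n : ℕ) (m : ℕ∞) : Pt.a n ∉ sF i m := by rintro ⟨n, -, h⟩; cases h
@[simp] theorem a_notMem_sW (n : ℕ) (m : ℕ∞) : Pt.a n ∉ sW m := by rintro ⟨n, -, h⟩; cases h
@[simp] theorem f_notMem_sW (i n : ℕ) (m : ℕ∞) : Pt.f i n ∉ sW m := by rintro ⟨n, -, h⟩; cases h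

/-- No private condition on the empty set of special points. -/
theorem noSpecial {U : Type u} {X : Set U} {Z : U → Set U} : ∀ p ∈ (∅ : Set U), Z p ⊆ X ∧ p ∉ Z p ∧
    ∀ p' ∈ (∅ : Set U), p' ≠ p → p' ∈ Z p := fun p hp => absurd hp (Set.notMem_empty p)

theorem single_special {U : Type u} {X S : Set U} {p : U} (hS : S ⊆ X) (hpS : p ∉ S) :
    ∀ q ∈ ({p} : Set U), S ⊆ X ∧ q ∉ S ∧ ∀ p' ∈ ({p} : Set U), p' ≠ q → p' ∈ S := by
  rintro q rfl
  exact ⟨hS, hpS, fun p' hp' hne => absurd hp' hne⟩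

/-- If every core of the sum is empty then its number is the number of points. -/
theorem helly_eq_encard {U : Type u} {X : Set U} {C : Set (Set U)} (h0 : ∅ ∈ C) {σ : ℕ}
    (h : ∀ T ⊆ X, core C σ T = ∅) : helly X C σ = X.encard := by
  refine le_antisymm (helly_le_encard h0 σ) ?_
  refine le_helly_of_infinite h0 fun n hn => ?_
  obtain ⟨T, hT, hc⟩ := exists_subset_encard hn
  exact ⟨T, hT, hc, h T hT⟩

/-- Disjoint free spaces. -/
theorem value_add {σ : ℕ} (hσ : 1 ≤ σ) (n₁ n₂ : ℕ∞) : IsValue.{u} σ n₁ n₂ (n₁ + n₂) := by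
  refine ⟨Pt.{u}, sA.{u} n₁, sW.{u} n₂, avoid (sA.{u} n₁) ∅ fun _ => ∅, avoid (sW.{u} n₂) ∅ fun _ => ∅,
    avoid_aligned _ (Set.empty_subset _), avoid_aligned _ (Set.empty_subset _), ?_, ?_, ?_⟩
  · rw [helly_free _ _ hσ, encard_sA]
  · rw [helly_free _ _ hσ, encard_sW]
  · rw [helly_eq_encard, Set.encard_union_eq, encard_sA, encard_sW]
    · rw [Set.disjoint_left]
      rintro _ ⟨n, -, rfl⟩
      simp
    · exact empty_mem_alignedSum (avoid_aligned _ (Set.empty_subset _)).empty_mem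
        (avoid_aligned _ (Set.empty_subset _)).empty_mem
    · intro T hT
      rw [core_sum_avoid_iff (Set.empty_subset _) (Set.empty_subset _) noSpecial noSpecial hσ hT]
      rintro x (hx | hx)
      · exact Or.inl ⟨hx, fun h => absurd h (Set.notMem_empty x)⟩
      · exact Or.inr ⟨hx, fun h => absurd h (Set.notMem_empty x)⟩

/-- Nested free spaces. -/
theorem value_max {σ : ℕ} (hσ : 1 ≤ σ) (n₁ n₂ : ℕ∞) : IsValue.{u} σ n₁ n₂ (max n₁ n₂) := by
  wlog h : n₁ ≤ n₂ generalizing n₁ n₂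
  · rw [max_comm]
    exact (this n₂ n₁ (not_le.1 h).le).symm
  rw [max_eq_right h]
  refine ⟨Pt.{u}, sA.{u} n₁, sA.{u} n₂, avoid (sA.{u} n₁) ∅ fun _ => ∅, avoid (sA.{u} n₂) ∅ fun _ => ∅,
    avoid_aligned _ (Set.empty_subset _), avoid_aligned _ (Set.empty_subset _), ?_, ?_, ?_⟩
  · rw [helly_free _ _ hσ, encard_sA]
  · rw [helly_free _ _ hσ, encard_sA]
  · rw [helly_eq_encard, Set.union_eq_right.2 (sA_mono h), encard_sA]
    · exact empty_mem_alignedSum (avoid_aligned _ (Set.empty_subset _)).empty_mem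
        (avoid_aligned _ (Set.empty_subset _)).empty_mem
    · intro T hT
      rw [core_sum_avoid_iff (Set.empty_subset _) (Set.empty_subset _) noSpecial noSpecial hσ hT]
      rintro x (hx | hx)
      · exact Or.inl ⟨hx, fun h => absurd h (Set.notMem_empty x)⟩
      · exact Or.inr ⟨hx, fun h => absurd h (Set.notMem_empty x)⟩

/-- No upper bound. -/
theorem value_top {σ : ℕ} (hσ : 1 ≤ σ) {n₁ n₂ : ℕ∞} (h1 : 1 ≤ n₁) (h2 : 1 ≤ n₂)
    (h : (σ : ℕ∞) ≤ n₁ ∨ (σ : ℕ∞) ≤ n₂) : IsValue.{u} σ n₁ n₂ ⊤ := by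
  wlog hn : (σ : ℕ∞) ≤ n₂ generalizing n₁ n₂
  · exact (this h2 h1 h.symm (h.resolve_right hn)).symm
  have hq : ({Pt.q.{u} 0} : Set Pt.{u}) ⊆ Set.univ := Set.subset_univ _
  have htop : ∀ S : Set Pt.{u}, S ⊆ sF.{u} 0 ⊤ → (σ : ℕ∞) ≤ (Set.univ \ S : Set Pt.{u}).encard := by
    intro S hS
    have h3 : sW.{u} ⊤ ⊆ Set.univ \ S := by
      rintro _ ⟨n, -, rfl⟩
      exact ⟨trivial, fun hS' => absurd (hS hS') (by simp)⟩
    refine le_trans ?_ (Set.encard_le_encard h3)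
    rw [encard_sW]
    exact le_top
  have hH2 : helly Set.univ (avoid Set.univ {Pt.q.{u} 0} fun _ => sF.{u} 0 (n₂ - σ)) σ = n₂ := by
    rw [helly_single (Set.mem_univ _) (Set.subset_univ _) (by simp) hσ, encard_sF, tsub_add_cancel_of_le hn]
    refine htop _ ?_
    rintro _ ⟨n, -, rfl⟩
    exact ⟨n, by simp, rfl⟩
  have huniv : (Set.univ : Set Pt.{u}).encard = ⊤ := by
    refine top_le_iff.1 ?_
    rw [← encard_sA ⊤]
    exact Set.encard_le_encard (Set.subset_univ _)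
  rcases le_or_gt (σ : ℕ∞) n₁ with hn1 | hn1
  · refine ⟨Pt.{u}, Set.univ, Set.univ, avoid Set.univ {Pt.p.{u}} fun _ => sA.{u} (n₁ - σ),
      avoid Set.univ {Pt.q.{u} 0} fun _ => sF.{u} 0 (n₂ - σ), avoid_aligned _ (Set.subset_univ _),
      avoid_aligned _ (Set.subset_univ _), ?_, hH2, ?_⟩
    · rw [helly_single (Set.mem_univ _) (Set.subset_univ _) (by simp) hσ, encard_sA, tsub_add_cancel_of_le hn1]
      have h3 : sW.{u} ⊤ ⊆ Set.univ \ sA.{u} (n₁ - σ) := by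
        rintro _ ⟨n, -, rfl⟩
        exact ⟨trivial, by simp⟩
      refine le_trans ?_ (Set.encard_le_encard h3)
      rw [encard_sW]
      exact le_top
    · rw [helly_eq_encard, Set.union_self, huniv]
      · exact empty_mem_alignedSum (avoid_aligned _ (Set.subset_univ _)).empty_mem
          (avoid_aligned _ (Set.subset_univ _)).empty_mem
      · intro T hT
        rw [core_sum_avoid_iff (Set.subset_univ _) (Set.subset_univ _)
          (single_special (Set.subset_univ _) (by simp)) (single_special (Set.subset_univ _) (by simp)) hσ hT]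
        intro x _
        by_cases hx : x = Pt.p
        · right
          refine ⟨trivial, fun h' => ?_⟩
          rw [hx] at h'
          cases h'
        · left
          exact ⟨trivial, fun h' => absurd h' hx⟩
  · -- `X₁` is a small free space containing the special point of `X₂`
    have hX1 : (insert (Pt.q.{u} 0) (sA.{u} (n₁ - 1))).encard = n₁ := by
      rw [Set.encard_insert_of_notMem (by simp), encard_sA, tsub_add_cancel_of_le h1]
    refine ⟨Pt.{u}, insert (Pt.q.{u} 0) (sA.{u} (n₁ - 1)), Set.univ, avoid (insert (Pt.q.{u} 0) (sA.{u} (n₁ - 1))) ∅ fun _ => ∅,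
      avoid Set.univ {Pt.q.{u} 0} fun _ => sF.{u} 0 (n₂ - σ), avoid_aligned _ (Set.empty_subset _),
      avoid_aligned _ (Set.subset_univ _), ?_, hH2, ?_⟩
    · rw [helly_free _ _ hσ, hX1]
    · rw [helly_eq_encard, Set.union_univ, huniv]
      · exact empty_mem_alignedSum (avoid_aligned _ (Set.empty_subset _)).empty_mem
          (avoid_aligned _ (Set.subset_univ _)).empty_mem
      · intro T hT
        rw [core_sum_avoid_iff (Set.empty_subset _) (Set.subset_univ _) noSpecial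
          (single_special (Set.subset_univ _) (by simp)) hσ hT]
        intro x _
        by_cases hx : x = Pt.q 0
        · left
          refine ⟨?_, fun h' => absurd h' (Set.notMem_empty x)⟩
          rw [hx]
          exact Set.mem_insert _ _
        · right
          exact ⟨trivial, fun h' => absurd h' hx⟩

/-- The smaller number is attained. -/
theorem value_min {σ : ℕ} (hσ : 1 ≤ σ) {n₁ n₂ : ℕ∞} (h1 : (σ : ℕ∞) ≤ n₁) (h2 : (σ : ℕ∞) ≤ n₂)
    (hfin : min n₁ n₂ ≠ ⊤) : IsValue.{u} σ n₁ n₂ (min n₁ n₂) := by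
  wlog h : n₂ ≤ n₁ generalizing n₁ n₂
  · rw [min_comm] at hfin ⊢
    exact (this h2 h1 hfin (not_le.1 h).le).symm
  rw [min_eq_right h] at hfin ⊢
  obtain ⟨m, rfl⟩ := ENat.ne_top_iff_exists.1 hfin
  have hmσ : σ ≤ m := by exact_mod_cast h2
  have hS : sA.{u} ((m - σ : ℕ) : ℕ∞) ⊆ insert (Pt.q.{u} 0) (sA.{u} n₁) := by
    refine (sA_mono ?_).trans (Set.subset_insert _ _)
    refine le_trans ?_ h
    exact_mod_cast Nat.sub_le _ _
  have hq : ({Pt.q.{u} 0} : Set Pt.{u}) ⊆ insert (Pt.q.{u} 0) (sA.{u} n₁) := by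
    rw [Set.singleton_subset_iff]
    exact Set.mem_insert _ _
  have hcard : (σ : ℕ∞) ≤ (insert (Pt.q.{u} 0) (sA.{u} n₁) \ sA.{u} ((m - σ : ℕ) : ℕ∞)).encard := by
    have h3 : (sA.{u} (m : ℕ∞) \ sA.{u} ((m - σ : ℕ) : ℕ∞)) ⊆ insert (Pt.q.{u} 0) (sA.{u} n₁) \ sA.{u} ((m - σ : ℕ) : ℕ∞) :=
      Set.sdiff_subset_sdiff_left ((sA_mono h).trans (Set.subset_insert _ _))
    refine le_trans ?_ (Set.encard_le_encard h3)
    have h4 : (sA.{u} (m : ℕ∞)).encard ≤ (sA.{u} (m : ℕ∞) \ sA.{u} ((m - σ : ℕ) : ℕ∞)).encard + (sA.{u} ((m - σ : ℕ) : ℕ∞)).encard :=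
      Set.encard_le_encard_sdiff_add_encard _ _
    rw [encard_sA, encard_sA] at h4
    have h5 : ((σ : ℕ∞) + ((m - σ : ℕ) : ℕ∞)) = m := by
      exact_mod_cast (by omega : σ + (m - σ) = m)
    exact (ENat.add_le_add_iff_right (ENat.natCast_ne_top _)).1 (h5.le.trans h4)
  have hH : helly (insert (Pt.q.{u} 0) (sA.{u} n₁)) (avoid (insert (Pt.q.{u} 0) (sA.{u} n₁)) {Pt.q.{u} 0}
      fun _ => sA.{u} ((m - σ : ℕ) : ℕ∞)) σ = m := by
    rw [helly_single (Set.mem_insert _ _) hS (by simp) hσ hcard, encard_sA]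
    exact_mod_cast (by omega : m - σ + σ = m)
  refine ⟨Pt.{u}, sA.{u} n₁, insert (Pt.q.{u} 0) (sA.{u} n₁), avoid (sA.{u} n₁) ∅ fun _ => ∅,
    avoid (insert (Pt.q.{u} 0) (sA.{u} n₁)) {Pt.q.{u} 0} fun _ => sA.{u} ((m - σ : ℕ) : ℕ∞),
    avoid_aligned _ (Set.empty_subset _), avoid_aligned _ hq, ?_, hH, ?_⟩
  · rw [helly_free _ _ hσ, encard_sA]
  · have hun : sA.{u} n₁ ∪ insert (Pt.q.{u} 0) (sA.{u} n₁) = insert (Pt.q.{u} 0) (sA.{u} n₁) :=
      Set.union_eq_right.2 (Set.subset_insert _ _)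
    have hcore : ∀ T ⊆ insert (Pt.q.{u} 0) (sA.{u} n₁),
        (core (alignedSum (sA.{u} n₁) (avoid (sA.{u} n₁) ∅ fun _ => ∅) (insert (Pt.q.{u} 0) (sA.{u} n₁))
          (avoid (insert (Pt.q.{u} 0) (sA.{u} n₁)) {Pt.q.{u} 0} fun _ => sA.{u} ((m - σ : ℕ) : ℕ∞))) σ T = ∅ ↔
        core (avoid (insert (Pt.q.{u} 0) (sA.{u} n₁)) {Pt.q.{u} 0} fun _ => sA.{u} ((m - σ : ℕ) : ℕ∞)) σ T = ∅) := by
      intro T hT
      rw [core_sum_avoid_iff (Set.empty_subset _) hq noSpecial (single_special hS (by simp)) hσ (by rw [hun]; exact hT),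
        core_avoid_iff hq (single_special hS (by simp)) hσ hT, hun, Set.inter_eq_left.2 hT]
      constructor
      · rintro hall q rfl
        rcases hall (Pt.q 0) (Set.mem_insert _ _) with ⟨h6, -⟩ | ⟨-, h6⟩
        · simp at h6
        · exact h6 rfl
      · intro hall x hx
        rcases hx with rfl | hx
        · exact Or.inr ⟨Set.mem_insert _ _, fun _ => hall _ rfl⟩
        · exact Or.inl ⟨hx, fun h' => absurd h' (Set.notMem_empty x)⟩
    rw [hun, ← hH]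
    have h01 := empty_mem_alignedSum (X₁ := sA.{u} n₁) (X₂ := insert (Pt.q.{u} 0) (sA.{u} n₁))
      (avoid_aligned (X := sA.{u} n₁) (fun _ => (∅ : Set Pt.{u})) (Set.empty_subset _)).empty_mem
      (avoid_aligned (fun _ => sA.{u} ((m - σ : ℕ) : ℕ∞)) hq).empty_mem
    have h02 := (avoid_aligned (fun _ => sA.{u} ((m - σ : ℕ) : ℕ∞)) hq).empty_mem
    refine le_antisymm ?_ ?_
    · refine le_helly_of_infinite h02 fun n hn => ?_
      obtain ⟨T, hT, hc, hco⟩ := (le_helly_iff h01).1 hn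
      exact ⟨T, hT, hc, (hcore T hT).1 hco⟩
    · refine le_helly_of_infinite h01 fun n hn => ?_
      obtain ⟨T, hT, hc, hco⟩ := (le_helly_iff h02).1 hn
      exact ⟨T, hT, hc, (hcore T hT).2 hco⟩

/-- The value `2 σ`. -/
theorem value_two_mul {σ : ℕ} (hσ : 1 ≤ σ) {n₁ n₂ : ℕ∞} (h1 : ((2 * σ : ℕ) : ℕ∞) ≤ n₁)
    (h2 : ((2 * σ : ℕ) : ℕ∞) ≤ n₂) : IsValue.{u} σ n₁ n₂ ((2 * σ : ℕ) : ℕ∞) := by
  have hσn1 : (σ : ℕ∞) ≤ n₁ := le_trans (by exact_mod_cast (by omega : σ ≤ 2 * σ)) h1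
  have hσn2 : (σ : ℕ∞) ≤ n₂ := le_trans (by exact_mod_cast (by omega : σ ≤ 2 * σ)) h2
  have hsub : ∀ n : ℕ∞, ((2 * σ : ℕ) : ℕ∞) ≤ n → (σ : ℕ∞) ≤ n - σ := by
    intro n hn
    refine ENat.le_sub_of_add_le_left (ENat.natCast_ne_top _) (le_trans ?_ hn)
    exact_mod_cast (by omega : σ + σ ≤ 2 * σ)
  set A := sA.{u} (n₁ - σ) with hA
  set F := sF.{u} 0 (n₂ - σ) with hF
  have hAσ : (σ : ℕ∞) ≤ A.encard := by rw [encard_sA]; exact hsub _ h1
  have hFσ : (σ : ℕ∞) ≤ F.encard := by rw [encard_sF]; exact hsub _ h2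
  set X₁ := insert Pt.p.{u} (A ∪ F) with hX₁
  set X₂ := insert (Pt.q.{u} 0) (A ∪ F) with hX₂
  have hdis : Disjoint A F := by
    rw [Set.disjoint_left]
    rintro _ ⟨n, -, rfl⟩
    simp [hF]
  have hAX₁ : A ⊆ X₁ := Set.subset_union_left.trans (Set.subset_insert _ _)
  have hFX₁ : F ⊆ X₁ := Set.subset_union_right.trans (Set.subset_insert _ _)
  have hAX₂ : A ⊆ X₂ := Set.subset_union_left.trans (Set.subset_insert _ _)
  have hFX₂ : F ⊆ X₂ := Set.subset_union_right.trans (Set.subset_insert _ _)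
  have hp : ({Pt.p.{u}} : Set Pt.{u}) ⊆ X₁ := by
    rw [Set.singleton_subset_iff]; exact Set.mem_insert _ _
  have hq : ({Pt.q.{u} 0} : Set Pt.{u}) ⊆ X₂ := by
    rw [Set.singleton_subset_iff]; exact Set.mem_insert _ _
  have hFsub : F ⊆ X₁ \ A := fun x hx => ⟨hFX₁ hx, fun hxA => Set.disjoint_left.1 hdis hxA hx⟩
  have hAsub : A ⊆ X₂ \ F := fun x hx => ⟨hAX₂ hx, fun hxF => Set.disjoint_left.1 hdis hx hxF⟩
  have hpA : Pt.p ∉ A := by simp [hA]
  have hqF : Pt.q 0 ∉ F := by simp [hF]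
  refine ⟨Pt.{u}, X₁, X₂, avoid X₁ {Pt.p.{u}} fun _ => A, avoid X₂ {Pt.q.{u} 0} fun _ => F,
    avoid_aligned _ hp, avoid_aligned _ hq, ?_, ?_, ?_⟩
  · rw [helly_single (Set.mem_insert _ _) hAX₁ hpA hσ (hFσ.trans (Set.encard_le_encard hFsub)), encard_sA,
      tsub_add_cancel_of_le hσn1]
  · rw [helly_single (Set.mem_insert _ _) hFX₂ hqF hσ (hAσ.trans (Set.encard_le_encard hAsub)), encard_sF,
      tsub_add_cancel_of_le hσn2]
  · have hiff : ∀ T ⊆ X₁ ∪ X₂, (core (alignedSum X₁ (avoid X₁ {Pt.p.{u}} fun _ => A) X₂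
        (avoid X₂ {Pt.q.{u} 0} fun _ => F)) σ T = ∅ ↔ ((T ∩ X₁) \ A).encard ≤ σ ∧ ((T ∩ X₂) \ F).encard ≤ σ) := by
      intro T hT
      rw [core_sum_avoid_iff hp hq (single_special hAX₁ hpA) (single_special hFX₂ hqF) hσ hT]
      constructor
      · intro hall
        refine ⟨?_, ?_⟩
        · rcases hall Pt.p (Or.inl (Set.mem_insert _ _)) with ⟨-, h3⟩ | ⟨h3, -⟩
          · exact h3 rfl
          · simp [hX₂, hA, hF] at h3
        · rcases hall (Pt.q 0) (Or.inr (Set.mem_insert _ _)) with ⟨h3, -⟩ | ⟨-, h3⟩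
          · simp [hX₁, hA, hF] at h3
          · exact h3 rfl
      · rintro ⟨h3, h4⟩ x (hx | hx)
        · exact Or.inl ⟨hx, fun _ => h3⟩
        · exact Or.inr ⟨hx, fun _ => h4⟩
    have h0 := empty_mem_alignedSum (X₁ := X₁) (X₂ := X₂) (avoid_aligned (fun _ => A) hp).empty_mem
      (avoid_aligned (fun _ => F) hq).empty_mem
    refine le_antisymm ?_ ?_
    · refine helly_le h0 fun T hT _ hc => ?_
      obtain ⟨h3, h4⟩ := (hiff T hT).1 hc
      have h5 : T ⊆ ((T ∩ X₁) \ A) ∪ ((T ∩ X₂) \ F) := by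
        intro x hx
        by_cases hxA : x ∈ A
        · exact Or.inr ⟨⟨hx, hAX₂ hxA⟩, fun hxF => Set.disjoint_left.1 hdis hxA hxF⟩
        · rcases hT hx with h6 | h6
          · exact Or.inl ⟨⟨hx, h6⟩, hxA⟩
          · by_cases hxF : x ∈ F
            · exact Or.inl ⟨⟨hx, hFX₁ hxF⟩, hxA⟩
            · exact Or.inr ⟨⟨hx, h6⟩, hxF⟩
      refine (Set.encard_le_encard h5).trans ((Set.encard_union_le _ _).trans ((add_le_add h3 h4).trans ?_))
      exact_mod_cast (by omega : σ + σ ≤ 2 * σ)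
    · refine (le_helly_iff h0).2 ?_
      obtain ⟨V, hV, hVc⟩ := exists_subset_encard hAσ
      obtain ⟨V', hV', hVc'⟩ := exists_subset_encard hFσ
      have hVT : V ∪ V' ⊆ X₁ ∪ X₂ := Set.union_subset (hV.trans (hAX₁.trans Set.subset_union_left))
        (hV'.trans (hFX₁.trans Set.subset_union_left))
      refine ⟨V ∪ V', hVT, ?_, ?_⟩
      · rw [Set.encard_union_eq (Set.disjoint_of_subset hV hV' hdis), hVc, hVc']
        exact_mod_cast (by omega : σ + σ = 2 * σ)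
      · rw [hiff _ hVT]
        refine ⟨?_, ?_⟩
        · refine (Set.encard_le_encard (t := V') ?_).trans hVc'.le
          rintro x ⟨⟨hx, -⟩, hxA⟩
          exact hx.resolve_left fun h3 => hxA (hV h3)
        · refine (Set.encard_le_encard (t := V) ?_).trans hVc.le
          rintro x ⟨⟨hx, -⟩, hxF⟩
          exact hx.resolve_right fun h3 => hxF (hV' h3)

end Pool.Agent.Helper18_Helly
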