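import Pool.Agent.Helper18_Helly.Sqrt

set_option autoImplicit false

namespace Pool.Agent.Helper18_Helly

universe u

theorem ceil_prop (σ : ℕ) : 4 * σ ≤ ⌈2 * √(σ : ℝ)⌉₊ ^ 2 := by
  have h1 : 2 * √(σ : ℝ) ≤ ⌈2 * √(σ : ℝ)⌉₊ := Nat.le_ceil _
  have h2 : (4 * σ : ℝ) ≤ (⌈2 * √(σ : ℝ)⌉₊ : ℝ) ^ 2 := by
    have h3 : (2 * √(σ : ℝ)) ^ 2 = 4 * σ := by
      rw [mul_pow, Real.sq_sqrt (Nat.cast_nonneg σ)]; norm_num
    rw [← h3]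
    gcongr
  exact_mod_cast h2

theorem lt_ceil_prop {σ j : ℕ} (hj : j < ⌈2 * √(σ : ℝ)⌉₊) (a b : ℕ) (hab : a + b = j) : a * b + 1 ≤ σ := by
  rw [Nat.lt_ceil] at hj
  have h3 : (2 * √(σ : ℝ)) ^ 2 = 4 * σ := by
    rw [mul_pow, Real.sq_sqrt (Nat.cast_nonneg σ)]; norm_num
  have h4 : (j : ℝ) ^ 2 < 4 * σ := by
    rw [← h3]
    have := Nat.cast_nonneg (α := ℝ) j
    gcongr
  have h5 : j ^ 2 < 4 * σ := by exact_mod_cast h4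
  subst hab
  nlinarith [sq_nonneg ((a : ℤ) - b), sq_nonneg ((a : ℤ) + b)]

theorem exists_split {σ J : ℕ} (hσ : 1 ≤ σ) (hJ : 4 * σ ≤ J ^ 2) :
    ∃ x c : ℕ, 1 ≤ x ∧ x + c = J ∧ σ ≤ x * c ∧ (x - 1) * (c + 1) + 1 ≤ σ := by
  have hex : ∃ x, σ ≤ x * (J - x) := by
    refine ⟨J / 2, ?_⟩
    rcases Nat.even_or_odd' J with ⟨m, hm | hm⟩
    · rw [hm]
      rw [show 2 * m / 2 = m by omega, show 2 * m - m = m by omega]
      rw [hm] at hJ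
      nlinarith
    · rw [hm]
      rw [show (2 * m + 1) / 2 = m by omega, show 2 * m + 1 - m = m + 1 by omega]
      rw [hm] at hJ
      nlinarith
  classical
  set x := Nat.find hex with hx
  have h1 : σ ≤ x * (J - x) := Nat.find_spec hex
  have hx1 : 1 ≤ x := by
    rcases Nat.eq_zero_or_pos x with h | h
    · rw [h] at h1
      omega
    · exact h
  have hxJ : 1 ≤ J - x := by
    rcases Nat.eq_zero_or_pos (J - x) with h | h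
    · rw [h] at h1
      omega
    · exact h
  have h2 : ¬ σ ≤ (x - 1) * (J - (x - 1)) := Nat.find_min hex (by omega)
  refine ⟨x, J - x, hx1, by omega, h1, ?_⟩
  rw [show J - (x - 1) = J - x + 1 by omega] at h2
  omega

/-- The general lower bound. -/
theorem lower_bound {U : Type u} {X₁ X₂ : Set U} {C₁ C₂ : Set (Set U)} (h₁ : IsAligned X₁ C₁)
    (h₂ : IsAligned X₂ C₂) {σ : ℕ} :
    min (min (helly X₁ C₁ σ) (helly X₂ C₂ σ)) ((σ + ⌈2 * √(σ : ℝ)⌉₊ - 1 : ℕ) : ℕ∞) ≤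
      helly (X₁ ∪ X₂) (alignedSum X₁ C₁ X₂ C₂) σ := by
  refine ENat.forall_natCast_le_iff_le.1 fun n hn => ?_
  rw [le_min_iff, le_min_iff] at hn
  obtain ⟨⟨hn1, hn2⟩, hn3⟩ := hn
  rcases le_or_gt n σ with hσ | hσ
  · refine le_helly_of_le (empty_mem_alignedSum h₁.empty_mem h₂.empty_mem) hσ ?_
    exact (hn1.trans (helly_le_encard h₁.empty_mem σ)).trans (Set.encard_le_encard Set.subset_union_left)
  · obtain ⟨j, rfl⟩ := Nat.exists_eq_add_of_le hσ.le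
    have h3 : σ + j ≤ σ + ⌈2 * √(σ : ℝ)⌉₊ - 1 := by exact_mod_cast hn3
    exact lower_small h₁ h₂ (fun a b hab => lt_ceil_prop (by omega) a b hab) hn1 hn2

theorem lower_bound_large {U : Type u} {X₁ X₂ : Set U} {C₁ C₂ : Set (Set U)} (h₁ : IsAligned X₁ C₁)
    (h₂ : IsAligned X₂ C₂) {σ : ℕ} (hσ : 1 ≤ σ) (H₁ : ((σ ^ 2 : ℕ) : ℕ∞) < helly X₁ C₁ σ)
    (H₂ : ((σ ^ 2 : ℕ) : ℕ∞) < helly X₂ C₂ σ) :
    ((2 * σ : ℕ) : ℕ∞) ≤ helly (X₁ ∪ X₂) (alignedSum X₁ C₁ X₂ C₂) σ := by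
  refine lower_large h₁ h₂ hσ ?_ ?_
  · rw [Nat.cast_add, Nat.cast_one]
    exact Order.add_one_le_of_lt H₁
  · rw [Nat.cast_add, Nat.cast_one]
    exact Order.add_one_le_of_lt H₂

/-- The main sharpness statement. -/
theorem value_lower {σ : ℕ} (hσ : 1 ≤ σ) {n₁ n₂ : ℕ∞} (h1 : (σ : ℕ∞) ≤ n₁) (h2 : (σ : ℕ∞) ≤ n₂)
    (h : min n₁ n₂ ≤ ((σ + ⌈2 * √(σ : ℝ)⌉₊ : ℕ) : ℕ∞)) :
    IsValue.{u} σ n₁ n₂ (min (min n₁ n₂) ((σ + ⌈2 * √(σ : ℝ)⌉₊ - 1 : ℕ) : ℕ∞)) := by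
  have hJ1 : 1 ≤ ⌈2 * √(σ : ℝ)⌉₊ := by
    rw [Nat.one_le_ceil_iff]
    have : (0 : ℝ) < √(σ : ℝ) := Real.sqrt_pos.2 (by exact_mod_cast hσ)
    positivity
  wlog hn : n₂ ≤ n₁ generalizing n₁ n₂
  · rw [min_comm n₁ n₂] at h ⊢
    exact (this h2 h1 h (not_le.1 hn).le).symm
  rcases le_or_gt (min n₁ n₂) ((σ + ⌈2 * √(σ : ℝ)⌉₊ - 1 : ℕ) : ℕ∞) with h3 | h3
  · rw [min_eq_left h3]
    exact value_min hσ h1 h2 (ne_top_of_le_ne_top (ENat.natCast_ne_top _) h3)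
  · rw [min_eq_right h3.le]
    have h4 : n₂ = ((σ + ⌈2 * √(σ : ℝ)⌉₊ : ℕ) : ℕ∞) := by
      rw [min_eq_right hn] at h h3
      refine le_antisymm h ?_
      have := Order.add_one_le_of_lt h3
      refine le_trans ?_ this
      exact_mod_cast (by omega : σ + ⌈2 * √(σ : ℝ)⌉₊ ≤ σ + ⌈2 * √(σ : ℝ)⌉₊ - 1 + 1)
    obtain ⟨x, c, hx, hxc, hc, hmin⟩ := exists_split hσ (ceil_prop σ)
    have h5 := value_sqrt.{u} (σ := σ) (x := x) (c := c) hx hc hmin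
      (fun a b hab => lt_ceil_prop (j := a + b) (by omega) a b rfl) (n₁ := n₁) (by
        rw [hxc, ← h4]
        exact hn)
    rw [hxc] at h5
    rw [h4]
    have e : σ + ⌈2 * √(σ : ℝ)⌉₊ - 1 = σ + (⌈2 * √(σ : ℝ)⌉₊ - 1) := by omega
    rw [e]
    exact h5

end Pool.Agent.Helper18_Helly
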