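import Pool.Agent.Helper18_Helly.Basic

set_option autoImplicit false

namespace Pool.Agent.Helper18_Helly

universe u

variable {U : Type u}

/-- Every member of the family has a private point. -/
def Priv (X : Set U) (𝒬 : Finset (Set U)) : Prop :=
  ∀ O ∈ 𝒬, ∃ x, x ∈ X ∧ x ∈ O ∧ ∀ O' ∈ 𝒬, O' ≠ O → x ∉ O'

open Classical in
/-- A finite cover of `X` has a subcover with private points. -/
theorem exists_minimal_cover {X : Set U} (𝒪 : Finset (Set U)) (h : ∀ x ∈ X, ∃ O ∈ 𝒪, x ∈ O) :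
    ∃ 𝒬 ⊆ 𝒪, (∀ x ∈ X, ∃ O ∈ 𝒬, x ∈ O) ∧ Priv X 𝒬 := by
  induction 𝒪 using Finset.strongInduction with
  | H 𝒪 ih =>
    by_cases hred : ∃ O ∈ 𝒪, ∀ x ∈ X, ∃ O' ∈ 𝒪.erase O, x ∈ O'
    · obtain ⟨O, hO, hcov⟩ := hred
      obtain ⟨𝒬, h1, h2⟩ := ih (𝒪.erase O) (Finset.erase_ssubset hO) hcov
      exact ⟨𝒬, h1.trans (Finset.erase_subset _ _), h2⟩
    · push Not at hred
      refine ⟨𝒪, subset_rfl, h, ?_⟩
      intro O hO
      obtain ⟨x, hx, hx'⟩ := hred O hO
      have h3 : ∀ O' ∈ 𝒪, O' ≠ O → x ∉ O' := fun O' hO' hne => hx' O' (Finset.mem_erase.2 ⟨hne, hO'⟩)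
      obtain ⟨O'', hO'', hxO''⟩ := h x hx
      have : O'' = O := by
        by_contra hne
        exact h3 O'' hO'' hne hxO''
      subst this
      exact ⟨x, hx, hxO'', h3⟩

open Classical in
/-- The set of private points. -/
theorem Priv.exists_finset {X : Set U} {𝒬 : Finset (Set U)} (h : Priv X 𝒬) :
    ∃ W : Finset U, (W : Set U) ⊆ X ∧ W.card = 𝒬.card ∧
      (∀ O ∈ 𝒬, (W.filter (fun x => x ∉ O)).card + 1 = 𝒬.card) ∧
      ∀ x ∈ W, ∀ O ∈ 𝒬, ∀ O' ∈ 𝒬, x ∈ O → x ∈ O' → O = O' := by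
  choose w hw using h
  have hinj : ∀ (O : Set U) (hO : O ∈ 𝒬) (O' : Set U) (hO' : O' ∈ 𝒬), w O hO = w O' hO' → O = O' := by
    intro O hO O' hO' he
    by_contra hne
    have h1 := (hw O' hO').2.2 O hO hne
    rw [← he] at h1
    exact h1 (hw O hO).2.1
  have hinj' : Set.InjOn (fun O : {O // O ∈ 𝒬} => w O.1 O.2) 𝒬.attach := by
    intro O _ O' _ he
    exact Subtype.ext (hinj _ _ _ _ he)
  have hmem : ∀ O (hO : O ∈ 𝒬), ∀ x ∈ 𝒬.attach.image (fun O : {O // O ∈ 𝒬} => w O.1 O.2), x ∈ O → x = w O hO := by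
    intro O hO x hx hxO
    rw [Finset.mem_image] at hx
    obtain ⟨O', -, rfl⟩ := hx
    by_contra hne
    have h1 := (hw O'.1 O'.2).2.2 O hO (by
      intro he
      subst he
      exact hne rfl)
    exact h1 hxO
  refine ⟨𝒬.attach.image (fun O => w O.1 O.2), ?_, ?_, ?_, ?_⟩
  · intro x hx
    simp only [Finset.coe_image, Set.mem_image] at hx
    obtain ⟨O, -, rfl⟩ := hx
    exact (hw O.1 O.2).1
  · rw [Finset.card_image_of_injOn hinj', Finset.card_attach]
  · intro O hO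
    have hcard : (𝒬.attach.image (fun O : {O // O ∈ 𝒬} => w O.1 O.2)).card = 𝒬.card := by
      rw [Finset.card_image_of_injOn hinj', Finset.card_attach]
    have h1 : ((𝒬.attach.image (fun O : {O // O ∈ 𝒬} => w O.1 O.2)).filter (fun x => x ∈ O)).card = 1 := by
      rw [Finset.card_eq_one]
      refine ⟨w O hO, ?_⟩
      ext a
      rw [Finset.mem_filter, Finset.mem_singleton]
      constructor
      · exact fun ha => hmem O hO a ha.1 ha.2
      · rintro rfl
        exact ⟨Finset.mem_image.2 ⟨⟨O, hO⟩, Finset.mem_attach _ _, rfl⟩, (hw O hO).2.1⟩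
    have h2 := Finset.card_filter_add_card_filter_not
      (s := 𝒬.attach.image (fun O : {O // O ∈ 𝒬} => w O.1 O.2)) (fun x => x ∈ O)
    omega
  · intro x hx O hO O' hO' hxO hxO'
    rw [Finset.mem_image] at hx
    obtain ⟨P, -, rfl⟩ := hx
    have h1 : ∀ O ∈ 𝒬, w P.1 P.2 ∈ O → O = P.1 := by
      intro O hO hx
      by_contra hne
      exact (hw P.1 P.2).2.2 O hO hne hx
    rw [h1 O hO hxO, h1 O' hO' hxO']

open Classical in
theorem extend_T {X : Set U} {σ j : ℕ} (hX : ((σ + j : ℕ) : ℕ∞) ≤ X.encard) {𝒬 : Finset (Set U)}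
    (T₀ : Finset U) (h0 : (T₀ : Set U) ⊆ X) (h1 : T₀.card ≤ σ + j)
    (h2 : ∀ O ∈ 𝒬, j ≤ (T₀.filter (fun x => x ∉ O)).card) :
    ∃ T ⊆ X, T.encard = ((σ + j : ℕ) : ℕ∞) ∧ ∀ O ∈ 𝒬, (T ∩ O).encard ≤ σ := by
  obtain ⟨T, hT0, hTX, hT⟩ := Set.exists_superset_subset_encard_eq h0
    (k := ((σ + j : ℕ) : ℕ∞)) (by rw [Set.encard_coe_eq_coe_finsetCard]; exact_mod_cast h1) hX
  refine ⟨T, hTX, hT, fun O hO => ?_⟩
  have h3 : (j : ℕ∞) ≤ (T \ O).encard := by
    have h4 : ((T₀.filter (fun x => x ∉ O) : Finset U) : Set U) ⊆ T \ O := by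
      intro x hx
      simp only [Finset.coe_filter, Set.mem_ofPred_eq] at hx
      exact ⟨hT0 hx.1, hx.2⟩
    refine le_trans ?_ (Set.encard_le_encard h4)
    rw [Set.encard_coe_eq_coe_finsetCard]
    exact_mod_cast h2 O hO
  have h5 := Set.encard_diff_add_encard_inter T O
  rw [hT] at h5
  have hfin : T.Finite := Set.finite_of_encard_eq_coe hT
  have hf1 := (hfin.subset (Set.inter_subset_left (t := O)))
  have hf2 := (hfin.subset (Set.diff_subset (t := O)))
  rw [← hf1.cast_ncard_eq] at h5 ⊢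
  rw [← hf2.cast_ncard_eq] at h5 h3
  norm_cast at h5 h3 ⊢
  omega

theorem exists_finset_of_le {S : Set U} {n : ℕ} (h : (n : ℕ∞) ≤ S.encard) :
    ∃ A : Finset U, (A : Set U) ⊆ S ∧ A.card = n := by
  obtain ⟨T, hT, hc⟩ := exists_subset_encard h
  have hfin : T.Finite := Set.finite_of_encard_eq_coe hc
  refine ⟨hfin.toFinset, by simpa using hT, ?_⟩
  have := hfin.encard_eq_coe_toFinset_card
  rw [hc] at this
  exact_mod_cast this.symm

open Classical in
/-- The combinatorial heart of the lower bound. -/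
theorem exists_T {X : Set U} {σ j : ℕ} (hX : ((σ + j : ℕ) : ℕ∞) ≤ X.encard) {𝒬 : Finset (Set U)}
    (h : Priv X 𝒬) (hr : (𝒬.card - 1) * (j + 1 - 𝒬.card) + 1 ≤ σ)
    (hF : ∀ O ∈ 𝒬, ∃ F : Finset U, (F : Set U) ⊆ X ∧ (∀ x ∈ F, x ∉ O) ∧ j ≤ F.card) :
    ∃ T ⊆ X, T.encard = ((σ + j : ℕ) : ℕ∞) ∧ ∀ O ∈ 𝒬, (T ∩ O).encard ≤ σ := by
  obtain ⟨W, hWX, hWc, hW1, hW2⟩ := h.exists_finset
  rcases le_or_gt 𝒬.card j with hcj | hcj
  · -- few sets
    have hA : ∀ O ∈ 𝒬, ∃ A : Finset U, (A : Set U) ⊆ X ∧ (∀ x ∈ A, x ∉ O) ∧ A.card = j + 1 - 𝒬.card ∧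
        Disjoint A W := by
      intro O hO
      obtain ⟨F, hFX, hFO, hFj⟩ := hF O hO
      have h1 : (F ∩ W).card + 1 ≤ 𝒬.card := by
        have h3 : (F ∩ W) ⊆ W.filter (fun x => x ∉ O) := by
          intro x hx
          rw [Finset.mem_inter] at hx
          rw [Finset.mem_filter]
          exact ⟨hx.2, hFO x hx.1⟩
        have h4 := Finset.card_le_card h3
        have h5 := hW1 O hO
        omega
      have h2 : j + 1 - 𝒬.card ≤ (F \ W).card := by
        have := Finset.card_sdiff_add_card_inter F W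
        omega
      obtain ⟨A, hAF, hAc⟩ := Finset.exists_subset_card_eq h2
      refine ⟨A, ?_, ?_, hAc, ?_⟩
      · intro x hx
        exact hFX (Finset.mem_sdiff.1 (hAF hx)).1
      · intro x hx
        exact hFO x (Finset.mem_sdiff.1 (hAF hx)).1
      · rw [Finset.disjoint_left]
        intro x hx
        exact (Finset.mem_sdiff.1 (hAF hx)).2
    choose A hA1 hA2 hA3 hA4 using hA
    let T₀ : Finset U := W ∪ 𝒬.attach.biUnion (fun O => A O.1 O.2)
    have hT₀ : ∀ O (hO : O ∈ 𝒬), A O hO ⊆ T₀ := by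
      intro O hO x hx
      rw [Finset.mem_union]
      right
      rw [Finset.mem_biUnion]
      exact ⟨⟨O, hO⟩, Finset.mem_attach _ _, hx⟩
    refine extend_T hX T₀ ?_ ?_ ?_
    · intro x hx
      rw [Finset.mem_coe, Finset.mem_union, Finset.mem_biUnion] at hx
      rcases hx with hx | ⟨O, -, hx⟩
      · exact hWX hx
      · exact hA1 O.1 O.2 hx
    · have h1 : T₀.card ≤ W.card + (𝒬.attach.biUnion (fun O => A O.1 O.2)).card := Finset.card_union_le _ _
      have h2 : (𝒬.attach.biUnion (fun O => A O.1 O.2)).card ≤ 𝒬.card * (j + 1 - 𝒬.card) := by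
        refine Finset.card_biUnion_le.trans ?_
        rw [Finset.sum_congr rfl (fun O _ => hA3 O.1 O.2), Finset.sum_const, Finset.card_attach, smul_eq_mul]
      rcases Nat.eq_zero_or_pos 𝒬.card with h3 | h3
      · rw [h3] at h2 hWc
        omega
      · have h4 : 𝒬.card * (j + 1 - 𝒬.card) = (𝒬.card - 1) * (j + 1 - 𝒬.card) + (j + 1 - 𝒬.card) := by
          obtain ⟨m, hm⟩ := Nat.exists_eq_add_of_le' h3
          rw [hm]
          simp only [Nat.add_sub_cancel]
          ring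
        rw [h4] at h2
        omega
    · intro O hO
      have h1 : Disjoint (W.filter (fun x => x ∉ O)) (A O hO) := by
        refine Finset.disjoint_of_subset_left (Finset.filter_subset _ _) (hA4 O hO).symm
      have h2 : (W.filter (fun x => x ∉ O)) ∪ (A O hO) ⊆ T₀.filter (fun x => x ∉ O) := by
        intro x hx
        rw [Finset.mem_union, Finset.mem_filter] at hx
        rw [Finset.mem_filter]
        rcases hx with hx | hx
        · exact ⟨Finset.mem_union_left _ hx.1, hx.2⟩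
        · exact ⟨hT₀ O hO hx, hA2 O hO x hx⟩
      have h3 := Finset.card_le_card h2
      rw [Finset.card_union_of_disjoint h1, hA3] at h3
      have h4 := hW1 O hO
      omega
  · -- many sets
    obtain ⟨T₀, hT₀W, hT₀c⟩ : ∃ T₀ ⊆ W, T₀.card = min W.card (σ + j) :=
      Finset.exists_subset_card_eq (min_le_left _ _)
    refine extend_T hX T₀ ?_ ?_ ?_
    · exact (Finset.coe_subset.2 hT₀W).trans hWX
    · rw [hT₀c]
      exact min_le_right _ _
    · intro O hO
      have h1 : (T₀.filter (fun x => x ∈ O)).card ≤ 1 := by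
        have h2 : (T₀.filter (fun x => x ∈ O)) ⊆ W.filter (fun x => x ∈ O) :=
          Finset.filter_subset_filter _ hT₀W
        have h3 := Finset.card_le_card h2
        have h4 := Finset.card_filter_add_card_filter_not (s := W) (fun x => x ∈ O)
        have h5 := hW1 O hO
        omega
      have h2 := Finset.card_filter_add_card_filter_not (s := T₀) (fun x => x ∈ O)
      have h3 : 1 ≤ σ := by omega
      rw [hT₀c] at h2
      rcases min_choice W.card (σ + j) with h4 | h4 <;> rw [h4] at h2 <;> omega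

end Pool.Agent.Helper18_Helly
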