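import Pool.Agent.Helper18_Helly.Lower

set_option autoImplicit false

namespace Pool.Agent.Helper18_Helly

universe u

variable {U : Type u}

theorem hull_mem {X : Set U} {C : Set (Set U)} (h : IsAligned X C) {S : Set U} (hS : S ⊆ X) : hull C S ∈ C :=
  h.sInter_mem _ (fun _ hA => hA.1) ⟨X, h.self_mem, hS⟩

open Classical in
theorem exists_cover {X : Set U} {C : Set (Set U)} (h : IsAligned X C) {σ : ℕ} (S : Finset U)
    (hS : (S : Set U) ⊆ X) (hc : core C σ S = ∅) :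
    ∃ 𝒪 : Finset (Set U), (∀ x ∈ X, ∃ O ∈ 𝒪, x ∈ O) ∧ ∀ O ∈ 𝒪, (S.filter (fun x => x ∈ O)).card ≤ σ ∧
      ∀ T : Set U, (T ∩ O).encard ≤ σ → ∀ x ∈ O, x ∈ X ∧ ∃ A ∈ C, x ∉ A ∧ ((T ∩ X) \ A).encard ≤ σ := by
  refine ⟨(S.powerset.filter (fun F : Finset U => (S \ F).card ≤ σ)).image
    (fun F : Finset U => X \ hull C (F : Set U)), ?_, ?_⟩
  · intro x hx
    obtain ⟨A, hA, hxA, hSA⟩ := (core_eq_empty_iff C σ S).1 hc x
    refine ⟨X \ hull C (S.filter (fun y => y ∈ A) : Finset U), ?_, hx, ?_⟩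
    · rw [Finset.mem_image]
      refine ⟨S.filter (fun y => y ∈ A), ?_, rfl⟩
      rw [Finset.mem_filter, Finset.mem_powerset]
      refine ⟨Finset.filter_subset _ _, ?_⟩
      have e : ((S \ S.filter (fun y => y ∈ A) : Finset U) : Set U) = (S : Set U) \ A := by
        ext y
        simp only [Finset.coe_sdiff, Finset.coe_filter, Set.mem_sdiff, Set.mem_ofPred_eq, Finset.mem_coe]
        tauto
      rw [← e, Set.encard_coe_eq_coe_finsetCard] at hSA
      exact_mod_cast hSA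
    · intro hxh
      exact hxA (hxh A ⟨hA, by
        intro y hy
        simp only [Finset.coe_filter, Set.mem_ofPred_eq] at hy
        exact hy.2⟩)
  · intro O hO
    rw [Finset.mem_image] at hO
    obtain ⟨F, hF, rfl⟩ := hO
    rw [Finset.mem_filter, Finset.mem_powerset] at hF
    refine ⟨?_, ?_⟩
    · refine le_trans (Finset.card_le_card ?_) hF.2
      intro x hx
      have hx' := @Finset.mem_filter U _ (Classical.decPred _) S x |>.1 hx
      rw [Finset.mem_sdiff]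
      refine ⟨hx'.1, fun hxF => ?_⟩
      exact hx'.2.2 (subset_hull C (F : Set U) hxF)
    · rintro T hT x ⟨hxX, hxh⟩
      refine ⟨hxX, hull C F, hull_mem h ((Finset.coe_subset.2 hF.1).trans hS), hxh, ?_⟩
      refine (Set.encard_le_encard ?_).trans hT
      rintro y ⟨⟨h1, h2⟩, h3⟩
      exact ⟨h1, h2, h3⟩

open Classical in
theorem le_helly_sum {X₁ X₂ : Set U} {C₁ C₂ : Set (Set U)} (h₁ : IsAligned X₁ C₁) (h₂ : IsAligned X₂ C₂)
    {σ : ℕ} (S₁ S₂ : Finset U) (hS₁ : (S₁ : Set U) ⊆ X₁) (hS₂ : (S₂ : Set U) ⊆ X₂)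
    (hc₁ : core C₁ σ S₁ = ∅) (hc₂ : core C₂ σ S₂ = ∅) {N : ℕ}
    (hT : ∀ 𝒬 : Finset (Set U), Priv (X₁ ∪ X₂) 𝒬 → (∀ O ∈ 𝒬, (S₁.filter (fun x => x ∈ O)).card ≤ σ ∨
      (S₂.filter (fun x => x ∈ O)).card ≤ σ) →
      ∃ T ⊆ X₁ ∪ X₂, T.encard = N ∧ ∀ O ∈ 𝒬, (T ∩ O).encard ≤ σ) :
    (N : ℕ∞) ≤ helly (X₁ ∪ X₂) (alignedSum X₁ C₁ X₂ C₂) σ := by
  obtain ⟨𝒪₁, a1, a2⟩ := exists_cover h₁ S₁ hS₁ hc₁
  obtain ⟨𝒪₂, b1, b2⟩ := exists_cover h₂ S₂ hS₂ hc₂
  obtain ⟨𝒬, hQ, hcov, hpriv⟩ := exists_minimal_cover (X := X₁ ∪ X₂) (𝒪₁ ∪ 𝒪₂) (by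
    rintro x (hx | hx)
    · obtain ⟨O, hO, hxO⟩ := a1 x hx
      exact ⟨O, Finset.mem_union_left _ hO, hxO⟩
    · obtain ⟨O, hO, hxO⟩ := b1 x hx
      exact ⟨O, Finset.mem_union_right _ hO, hxO⟩)
  obtain ⟨T, hTX, hTN, hTO⟩ := hT 𝒬 hpriv (by
    intro O hO
    rcases Finset.mem_union.1 (hQ hO) with h | h
    · exact Or.inl (a2 O h).1
    · exact Or.inr (b2 O h).1)
  refine (le_helly_iff (empty_mem_alignedSum h₁.empty_mem h₂.empty_mem)).2 ⟨T, hTX, hTN, ?_⟩
  rw [core_sum_eq_empty_iff h₁ h₂ hTX]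
  intro x hx
  obtain ⟨O, hO, hxO⟩ := hcov x hx
  rcases Finset.mem_union.1 (hQ hO) with h | h
  · exact Or.inl ((a2 O h).2 T (hTO O hO) x hxO)
  · exact Or.inr ((b2 O h).2 T (hTO O hO) x hxO)

theorem exists_finset_core {X : Set U} {C : Set (Set U)} (h : IsAligned X C) {σ n : ℕ}
    (hn : (n : ℕ∞) ≤ helly X C σ) : ∃ S : Finset U, (S : Set U) ⊆ X ∧ S.card = n ∧ core C σ S = ∅ := by
  obtain ⟨S, hS, hSn, hSc⟩ := (le_helly_iff h.empty_mem).1 hn
  have hfin : S.Finite := Set.finite_of_encard_eq_coe hSn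
  refine ⟨hfin.toFinset, by simpa using hS, ?_, by simpa using hSc⟩
  have := hfin.encard_eq_coe_toFinset_card
  rw [hSn] at this
  exact_mod_cast this.symm

open Classical in
/-- Main lower bound: below the threshold where `a + b = j` forces `a b < σ`. -/
theorem lower_small {X₁ X₂ : Set U} {C₁ C₂ : Set (Set U)} (h₁ : IsAligned X₁ C₁) (h₂ : IsAligned X₂ C₂)
    {σ j : ℕ} (hj : ∀ a b : ℕ, a + b = j → a * b + 1 ≤ σ)
    (H₁ : ((σ + j : ℕ) : ℕ∞) ≤ helly X₁ C₁ σ) (H₂ : ((σ + j : ℕ) : ℕ∞) ≤ helly X₂ C₂ σ) :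
    ((σ + j : ℕ) : ℕ∞) ≤ helly (X₁ ∪ X₂) (alignedSum X₁ C₁ X₂ C₂) σ := by
  obtain ⟨S₁, a1, a2, a3⟩ := exists_finset_core h₁ H₁
  obtain ⟨S₂, b1, b2, b3⟩ := exists_finset_core h₂ H₂
  refine le_helly_sum h₁ h₂ S₁ S₂ a1 b1 a3 b3 ?_
  intro 𝒬 hpriv hQ
  refine exists_T ?_ hpriv ?_ ?_
  · refine le_trans ?_ (Set.encard_le_encard (a1.trans Set.subset_union_left))
    rw [Set.encard_coe_eq_coe_finsetCard, a2]
  · rcases le_or_gt 𝒬.card (j + 1) with h | h
    · rcases Nat.eq_zero_or_pos 𝒬.card with h0 | h0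
      · rw [h0]
        have := hj 0 j (by omega)
        simpa using this
      · exact hj _ _ (by omega)
    · have := hj 0 j (by omega)
      rw [show j + 1 - 𝒬.card = 0 by omega]
      simpa using this
  · intro O hO
    rcases hQ O hO with h | h
    · refine ⟨S₁.filter (fun x => x ∉ O), ?_, ?_, ?_⟩
      · intro x hx
        simp only [Finset.coe_filter, Set.mem_ofPred_eq] at hx
        exact Or.inl (a1 hx.1)
      · intro x hx
        exact (Finset.mem_filter.1 hx).2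
      · have := Finset.card_filter_add_card_filter_not (s := S₁) (fun x => x ∈ O)
        omega
    · refine ⟨S₂.filter (fun x => x ∉ O), ?_, ?_, ?_⟩
      · intro x hx
        simp only [Finset.coe_filter, Set.mem_ofPred_eq] at hx
        exact Or.inr (b1 hx.1)
      · intro x hx
        exact (Finset.mem_filter.1 hx).2
      · have := Finset.card_filter_add_card_filter_not (s := S₂) (fun x => x ∈ O)
        omega

open Classical in
/-- A set of `c` points of `S` avoiding few sets with small traces and the private points. -/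
theorem exists_common {S W : Finset U} {𝒬 : Finset (Set U)} {σ c k : ℕ}
    (hQ : ∀ O ∈ 𝒬, (S.filter (fun x => x ∈ O)).card ≤ σ)
    (hW : (W.filter (fun x => ∀ O ∈ 𝒬, x ∉ O)).card ≤ k) (hcard : 𝒬.card * σ + k + c ≤ S.card) :
    ∃ A ⊆ S, A.card = c ∧ Disjoint A W ∧ ∀ O ∈ 𝒬, ∀ x ∈ A, x ∉ O := by
  have h1 : (𝒬.biUnion (fun O => S.filter (fun x => x ∈ O))).card ≤ 𝒬.card * σ := by
    refine Finset.card_biUnion_le.trans ?_
    refine (Finset.sum_le_sum hQ).trans ?_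
    rw [Finset.sum_const, smul_eq_mul]
  have h2 : S ⊆ (S.filter (fun x => x ∉ W ∧ ∀ O ∈ 𝒬, x ∉ O)) ∪ ((𝒬.biUnion (fun O => S.filter (fun x => x ∈ O))) ∪
      (W.filter (fun x => ∀ O ∈ 𝒬, x ∉ O))) := by
    intro x hx
    simp only [Finset.mem_union, Finset.mem_filter, Finset.mem_biUnion]
    by_cases hxO : ∀ O ∈ 𝒬, x ∉ O
    · by_cases hxW : x ∈ W
      · exact Or.inr (Or.inr ⟨hxW, hxO⟩)
      · exact Or.inl ⟨hx, hxW, hxO⟩
    · push Not at hxO
      obtain ⟨O, hO, hxO⟩ := hxO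
      exact Or.inr (Or.inl ⟨O, hO, hx, hxO⟩)
  have h3 := (Finset.card_le_card h2).trans (Finset.card_union_le _ _)
  have h4 := Finset.card_union_le (𝒬.biUnion (fun O => S.filter (fun x => x ∈ O))) (W.filter (fun x => ∀ O ∈ 𝒬, x ∉ O))
  obtain ⟨A, hA, hAc⟩ := Finset.exists_subset_card_eq (s := S.filter (fun x => x ∉ W ∧ ∀ O ∈ 𝒬, x ∉ O)) (n := c)
    (by omega)
  refine ⟨A, hA.trans (Finset.filter_subset _ _), hAc, ?_, ?_⟩
  · rw [Finset.disjoint_left]
    intro x hx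
    exact (Finset.mem_filter.1 (hA hx)).2.1
  · intro O hO x hx
    exact (Finset.mem_filter.1 (hA hx)).2.2 O hO

theorem arith_large {σ k₁ k₂ : ℕ} (h2 : 1 ≤ σ) (h : k₁ + k₂ ≤ σ) :
    k₁ * σ + k₂ + (σ + 1 - (k₁ + k₂)) ≤ σ ^ 2 + 1 := by
  obtain ⟨m, hm⟩ := Nat.exists_eq_add_of_le h
  have h3 : k₂ + (σ + 1 - (k₁ + k₂)) = σ + 1 - k₁ := by omega
  rw [add_assoc, h3]
  have h4 : k₁ ≤ σ := by omega
  obtain ⟨l, rfl⟩ := Nat.exists_eq_add_of_le h4
  have h5 : k₁ + l + 1 - k₁ = l + 1 := by omega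
  rw [h5]
  rcases Nat.eq_zero_or_pos l with h6 | h6
  · subst h6
    nlinarith
  · nlinarith [Nat.zero_le (k₁ * l)]

open Classical in
/-- If both numbers exceed `σ ^ 2`, then the number of the sum is at least `2 σ`. -/
theorem lower_large {X₁ X₂ : Set U} {C₁ C₂ : Set (Set U)} (h₁ : IsAligned X₁ C₁) (h₂ : IsAligned X₂ C₂)
    {σ : ℕ} (hσ : 1 ≤ σ)
    (H₁ : ((σ ^ 2 + 1 : ℕ) : ℕ∞) ≤ helly X₁ C₁ σ) (H₂ : ((σ ^ 2 + 1 : ℕ) : ℕ∞) ≤ helly X₂ C₂ σ) :
    ((2 * σ : ℕ) : ℕ∞) ≤ helly (X₁ ∪ X₂) (alignedSum X₁ C₁ X₂ C₂) σ := by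
  obtain ⟨S₁, a1, a2, a3⟩ := exists_finset_core h₁ H₁
  obtain ⟨S₂, b1, b2, b3⟩ := exists_finset_core h₂ H₂
  have hσ2 : 2 * σ ≤ σ ^ 2 + 1 := by nlinarith [sq_nonneg ((σ : ℤ) - 1)]
  rw [two_mul]
  refine le_helly_sum h₁ h₂ S₁ S₂ a1 b1 a3 b3 ?_
  intro 𝒬 hpriv hQ
  have hX : ((σ + σ : ℕ) : ℕ∞) ≤ (X₁ ∪ X₂).encard := by
    refine le_trans ?_ (Set.encard_le_encard (a1.trans Set.subset_union_left))
    rw [Set.encard_coe_eq_coe_finsetCard, a2]
    exact_mod_cast (by omega : σ + σ ≤ σ ^ 2 + 1)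
  have hcase : (𝒬.card ≤ 1 ∨ σ + 1 ≤ 𝒬.card) ∨ (2 ≤ 𝒬.card ∧ 𝒬.card ≤ σ) := by omega
  rcases hcase with hcase | hcase
  · refine exists_T hX hpriv ?_ ?_
    · rcases hcase with h | h
      · rw [show 𝒬.card - 1 = 0 by omega]
        simpa using hσ
      · rw [show σ + 1 - 𝒬.card = 0 by omega]
        simpa using hσ
    · intro O hO
      rcases hQ O hO with h | h
      · refine ⟨S₁.filter (fun x => x ∉ O), ?_, ?_, ?_⟩
        · intro x hx
          simp only [Finset.coe_filter, Set.mem_ofPred_eq] at hx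
          exact Or.inl (a1 hx.1)
        · intro x hx
          exact (Finset.mem_filter.1 hx).2
        · have := Finset.card_filter_add_card_filter_not (s := S₁) (fun x => x ∈ O)
          omega
      · refine ⟨S₂.filter (fun x => x ∉ O), ?_, ?_, ?_⟩
        · intro x hx
          simp only [Finset.coe_filter, Set.mem_ofPred_eq] at hx
          exact Or.inr (b1 hx.1)
        · intro x hx
          exact (Finset.mem_filter.1 hx).2
        · have := Finset.card_filter_add_card_filter_not (s := S₂) (fun x => x ∈ O)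
          omega
  · obtain ⟨hc2, hcσ⟩ := hcase
    obtain ⟨W, hWX, hWc, hW1, hW2⟩ := hpriv.exists_finset
    set 𝒬₁ := 𝒬.filter (fun O => (S₁.filter (fun x => x ∈ O)).card ≤ σ) with hQ₁
    set 𝒬₂ := 𝒬.filter (fun O => ¬ (S₁.filter (fun x => x ∈ O)).card ≤ σ) with hQ₂
    have hsum : 𝒬₁.card + 𝒬₂.card = 𝒬.card := Finset.card_filter_add_card_filter_not _
    -- private points outside all the members of a subfamily
    have hWsub : ∀ 𝒬' ⊆ 𝒬, (W.filter (fun x => ∀ O ∈ 𝒬', x ∉ O)).card + 𝒬'.card ≤ 𝒬.card := by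
      intro 𝒬' hsub
      have h1 : 𝒬'.card ≤ (W.filter (fun x => ¬ ∀ O ∈ 𝒬', x ∉ O)).card := by
        have h2 : ∀ O ∈ 𝒬', ∃ x ∈ W, x ∈ O := by
          intro O hO
          by_contra hcon
          push Not at hcon
          have h3 := hW1 O (hsub hO)
          rw [Finset.filter_true_of_mem hcon] at h3
          omega
        choose y hy1 hy2 using h2
        have h3 : 𝒬'.attach.card ≤ (W.filter (fun x => ¬ ∀ O ∈ 𝒬', x ∉ O)).card := by
          refine Finset.card_le_card_of_injOn (fun O => y O.1 O.2) ?_ ?_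
          · intro O _
            simp only [Finset.coe_filter, Set.mem_ofPred_eq]
            refine ⟨hy1 O.1 O.2, ?_⟩
            intro hcon
            exact hcon O.1 O.2 (hy2 O.1 O.2)
          · intro O _ O' _ he
            have he' : y O.1 O.2 = y O'.1 O'.2 := he
            refine Subtype.ext (hW2 (y O.1 O.2) (hy1 _ _) _ (hsub O.2) _ (hsub O'.2) (hy2 _ _) ?_)
            rw [he']
            exact hy2 _ _
        rwa [Finset.card_attach] at h3
      have h4 := Finset.card_filter_add_card_filter_not (s := W) (fun x => ∀ O ∈ 𝒬', x ∉ O)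
      omega
    have hw₁ := hWsub 𝒬₁ (Finset.filter_subset _ _)
    have hw₂ := hWsub 𝒬₂ (Finset.filter_subset _ _)
    obtain ⟨A₁, hA₁S, hA₁c, hA₁W, hA₁O⟩ := exists_common (S := S₁) (W := W) (𝒬 := 𝒬₁) (σ := σ)
      (c := σ + 1 - 𝒬.card) (k := 𝒬₂.card) (by
        intro O hO
        exact (Finset.mem_filter.1 hO).2) (by omega) (by
        rw [a2, ← hsum]
        exact arith_large hσ (by omega))
    obtain ⟨A₂, hA₂S, hA₂c, hA₂W, hA₂O⟩ := exists_common (S := S₂) (W := W) (𝒬 := 𝒬₂) (σ := σ)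
      (c := σ + 1 - 𝒬.card) (k := 𝒬₁.card) (by
        intro O hO
        rw [hQ₂, Finset.mem_filter] at hO
        exact (hQ O hO.1).resolve_left hO.2) (by omega) (by
        rw [b2, ← hsum, add_comm 𝒬₁.card]
        exact arith_large hσ (by omega))
    refine extend_T hX (W ∪ (A₁ ∪ A₂)) ?_ ?_ ?_
    · intro x hx
      rw [Finset.mem_coe, Finset.mem_union, Finset.mem_union] at hx
      rcases hx with hx | hx | hx
      · exact hWX hx
      · exact Or.inl (a1 (hA₁S hx))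
      · exact Or.inr (b1 (hA₂S hx))
    · have h1 := Finset.card_union_le W (A₁ ∪ A₂)
      have h2 := Finset.card_union_le A₁ A₂
      omega
    · intro O hO
      have key : ∀ A : Finset U, A ⊆ A₁ ∪ A₂ → A.card = σ + 1 - 𝒬.card → Disjoint A W → (∀ x ∈ A, x ∉ O) →
          σ ≤ ((W ∪ (A₁ ∪ A₂)).filter (fun x => x ∉ O)).card := by
        intro A hA hAc hAW hAO
        have h1 : Disjoint (W.filter (fun x => x ∉ O)) A :=
          Finset.disjoint_of_subset_left (Finset.filter_subset _ _) hAW.symm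
        have h2 : (W.filter (fun x => x ∉ O)) ∪ A ⊆ (W ∪ (A₁ ∪ A₂)).filter (fun x => x ∉ O) := by
          intro x hx
          rw [Finset.mem_union, Finset.mem_filter] at hx
          rw [Finset.mem_filter]
          rcases hx with hx | hx
          · exact ⟨Finset.mem_union_left _ hx.1, hx.2⟩
          · exact ⟨Finset.mem_union_right _ (hA hx), hAO x hx⟩
        have h3 := Finset.card_le_card h2
        rw [Finset.card_union_of_disjoint h1, hAc] at h3
        have h4 := hW1 O hO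
        omega
      by_cases hO1 : (S₁.filter (fun x => x ∈ O)).card ≤ σ
      · exact key A₁ Finset.subset_union_left hA₁c hA₁W (fun x hx => hA₁O O (Finset.mem_filter.2 ⟨hO, hO1⟩) x hx)
      · exact key A₂ Finset.subset_union_right hA₂c hA₂W (fun x hx => hA₂O O (Finset.mem_filter.2 ⟨hO, hO1⟩) x hx)

end Pool.Agent.Helper18_Helly
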