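import Pool.Agent.Helper18_Helly.LowerMain

set_option autoImplicit false

namespace Pool.Agent.Helper18_Helly

universe u

variable {U : Type u}

theorem helly_le_encard {X : Set U} {C : Set (Set U)} (h0 : ∅ ∈ C) (σ : ℕ) : helly X C σ ≤ X.encard :=
  helly_le h0 fun _ hS _ _ => Set.encard_le_encard hS

theorem le_helly_of_le {X : Set U} {C : Set (Set U)} (h0 : ∅ ∈ C) {σ n : ℕ} (hn : n ≤ σ)
    (hX : (n : ℕ∞) ≤ X.encard) : (n : ℕ∞) ≤ helly X C σ := by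
  obtain ⟨T, hT, hc⟩ := exists_subset_encard hX
  refine (le_helly_iff h0).2 ⟨T, hT, hc, ?_⟩
  rw [core_eq_empty_iff]
  intro x
  refine ⟨∅, h0, Set.notMem_empty x, ?_⟩
  rw [Set.sdiff_empty, hc]
  exact_mod_cast hn

theorem encard_eq_of_helly_lt {X : Set U} {C : Set (Set U)} (h0 : ∅ ∈ C) {σ : ℕ}
    (h : helly X C σ < σ) : X.encard = helly X C σ := by
  have h1 : X.encard < σ := by
    by_contra hcon
    push Not at hcon
    exact absurd (le_helly_of_le h0 le_rfl hcon) (not_le.2 h)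
  obtain ⟨m, hm⟩ := ENat.ne_top_iff_exists.1 (ne_top_of_lt h1)
  refine le_antisymm ?_ (helly_le_encard h0 σ)
  rw [← hm] at h1 ⊢
  refine le_helly_of_le h0 ?_ (by rw [← hm])
  exact_mod_cast h1.le

theorem alignedSum_comm (X₁ X₂ : Set U) (C₁ C₂ : Set (Set U)) :
    alignedSum X₁ C₁ X₂ C₂ = alignedSum X₂ C₂ X₁ C₁ := by
  ext D
  constructor
  · rintro ⟨A, hA, B, hB, rfl⟩
    exact ⟨B, hB, A, hA, by rw [Set.union_comm (A \ X₂), Set.inter_comm]⟩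
  · rintro ⟨A, hA, B, hB, rfl⟩
    exact ⟨B, hB, A, hA, by rw [Set.union_comm (A \ X₁), Set.inter_comm]⟩

theorem le_sum_of_lt {X₁ X₂ : Set U} {C₁ C₂ : Set (Set U)} (h₁ : IsAligned X₁ C₁) (h₂ : IsAligned X₂ C₂)
    {σ : ℕ} (h : helly X₁ C₁ σ < σ) :
    max (helly X₁ C₁ σ) (helly X₂ C₂ σ) ≤ helly (X₁ ∪ X₂) (alignedSum X₁ C₁ X₂ C₂) σ := by
  have hX := encard_eq_of_helly_lt h₁.empty_mem h
  have h0 := empty_mem_alignedSum (X₁ := X₁) (X₂ := X₂) h₁.empty_mem h₂.empty_mem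
  refine max_le ?_ ?_
  · obtain ⟨m, hm⟩ := ENat.ne_top_iff_exists.1 (ne_top_of_lt h)
    rw [← hm] at h ⊢
    refine le_helly_of_le h0 ?_ ?_
    · exact_mod_cast h.le
    · rw [hm, ← hX]
      exact Set.encard_le_encard Set.subset_union_left
  · refine le_helly_of_infinite h0 fun n hn => ?_
    obtain ⟨S, hS, hc, hcore⟩ := (le_helly_iff h₂.empty_mem).1 hn
    have hST : S ⊆ X₁ ∪ X₂ := hS.trans Set.subset_union_right
    refine ⟨S, hST, hc, ?_⟩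
    rw [core_sum_eq_empty_iff h₁ h₂ hST]
    rintro x (hx | hx)
    · left
      refine ⟨hx, ∅, h₁.empty_mem, Set.notMem_empty x, ?_⟩
      rw [Set.sdiff_empty]
      refine (Set.encard_le_encard Set.inter_subset_right).trans ?_
      rw [hX]
      exact h.le
    · right
      obtain ⟨B, hB, hxB, hSB⟩ := (core_eq_empty_iff _ _ _).1 hcore x
      refine ⟨hx, B, hB, hxB, (Set.encard_le_encard ?_).trans hSB⟩
      exact Set.sdiff_subset_sdiff_left Set.inter_subset_left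

theorem helly_sum_comm (X₁ X₂ : Set U) (C₁ C₂ : Set (Set U)) (σ : ℕ) :
    helly (X₁ ∪ X₂) (alignedSum X₁ C₁ X₂ C₂) σ = helly (X₂ ∪ X₁) (alignedSum X₂ C₂ X₁ C₁) σ := by
  rw [alignedSum_comm, Set.union_comm]

theorem sum_le_add_of_lt {X₁ X₂ : Set U} {C₁ C₂ : Set (Set U)} (h₁ : IsAligned X₁ C₁) (h₂ : IsAligned X₂ C₂)
    {σ : ℕ} (h : helly X₁ C₁ σ < σ) (h' : helly X₂ C₂ σ < σ) :
    helly (X₁ ∪ X₂) (alignedSum X₁ C₁ X₂ C₂) σ ≤ helly X₁ C₁ σ + helly X₂ C₂ σ := by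
  refine (helly_le_encard (empty_mem_alignedSum h₁.empty_mem h₂.empty_mem) σ).trans ?_
  rw [← encard_eq_of_helly_lt h₁.empty_mem h, ← encard_eq_of_helly_lt h₂.empty_mem h']
  exact Set.encard_union_le X₁ X₂

theorem sum_eq_of_zero {X₁ X₂ : Set U} {C₁ C₂ : Set (Set U)} (h₁ : IsAligned X₁ C₁)
    {σ : ℕ} (hσ : 1 ≤ σ) (h : helly X₁ C₁ σ = 0) :
    helly (X₁ ∪ X₂) (alignedSum X₁ C₁ X₂ C₂) σ = helly X₂ C₂ σ := by
  have hX := encard_eq_of_helly_lt h₁.empty_mem (σ := σ) (by rw [h]; exact_mod_cast hσ)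
  rw [h, Set.encard_eq_zero] at hX
  subst hX
  have e : alignedSum ∅ C₁ X₂ C₂ = C₂ := by
    ext D
    constructor
    · rintro ⟨A, hA, B, hB, rfl⟩
      have : A = ∅ := Set.subset_empty_iff.1 (h₁.subset A hA)
      subst this
      simpa using hB
    · intro hD
      exact ⟨∅, h₁.empty_mem, D, hD, by simp⟩
  rw [e, Set.empty_union]

/-- The convex sets are the subsets `A` of `X` such that every `p ∈ P` is in `A` or `A ⊆ Z p`. -/
def avoid (X P : Set U) (Z : U → Set U) : Set (Set U) := {A | A ⊆ X ∧ ∀ p ∈ P, p ∉ A → A ⊆ Z p}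

theorem avoid_aligned {X P : Set U} (Z : U → Set U) (hP : P ⊆ X) : IsAligned X (avoid X P Z) := by
  refine ⟨fun A hA => hA.1, ⟨Set.empty_subset _, fun _ _ _ => Set.empty_subset _⟩,
    ⟨subset_rfl, fun p hp hpX => absurd (hP hp) hpX⟩, ?_, ?_⟩
  · rintro S hS ⟨A, hA⟩
    refine ⟨(Set.sInter_subset_of_mem hA).trans (hS hA).1, ?_⟩
    intro p hp hpS
    rw [Set.mem_sInter] at hpS
    push Not at hpS
    obtain ⟨B, hB, hpB⟩ := hpS
    exact (Set.sInter_subset_of_mem hB).trans ((hS hB).2 p hp hpB)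
  · intro S hS _ _
    refine ⟨Set.sUnion_subset fun A hA => (hS hA).1, ?_⟩
    intro p hp hpS
    refine Set.sUnion_subset fun A hA => (hS hA).2 p hp ?_
    intro hpA
    exact hpS ⟨A, hA, hpA⟩

/-- Points missed in an avoidance space. -/
theorem miss_avoid_iff {X P : Set U} {Z : U → Set U} (hP : P ⊆ X) (hZ : ∀ p ∈ P, Z p ⊆ X ∧ p ∉ Z p ∧
    ∀ p' ∈ P, p' ≠ p → p' ∈ Z p) {σ : ℕ} (hσ : 1 ≤ σ) {T : Set U} (hT : T ⊆ X) (x : U) :
    (∃ A ∈ avoid X P Z, x ∉ A ∧ (T \ A).encard ≤ σ) ↔ (x ∈ P → (T \ Z x).encard ≤ σ) := by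
  constructor
  · rintro ⟨A, hA, hxA, hTA⟩ hx
    exact (Set.encard_le_encard (Set.sdiff_subset_sdiff_right (hA.2 x hx hxA))).trans hTA
  · intro h
    by_cases hx : x ∈ P
    · refine ⟨Z x, ⟨(hZ x hx).1, ?_⟩, (hZ x hx).2.1, h hx⟩
      intro p hp hpx
      have : p = x := by
        by_contra hne
        exact hpx ((hZ x hx).2.2 p hp hne)
      rw [this]
    · refine ⟨X \ {x}, ⟨Set.sdiff_subset, ?_⟩, fun hx' => hx'.2 rfl, ?_⟩
      · intro p hp hpA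
        exfalso
        apply hpA
        refine ⟨hP hp, ?_⟩
        rintro rfl
        exact hx hp
      · have h1 : T \ (X \ {x}) ⊆ {x} := by
          rintro y ⟨hyT, hy⟩
          by_contra hyx
          exact hy ⟨hT hyT, hyx⟩
        refine (Set.encard_le_encard h1).trans ?_
        rw [Set.encard_singleton]
        exact_mod_cast hσ

theorem core_avoid_iff {X P : Set U} {Z : U → Set U} (hP : P ⊆ X) (hZ : ∀ p ∈ P, Z p ⊆ X ∧ p ∉ Z p ∧
    ∀ p' ∈ P, p' ≠ p → p' ∈ Z p) {σ : ℕ} (hσ : 1 ≤ σ) {T : Set U} (hT : T ⊆ X) :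
    core (avoid X P Z) σ T = ∅ ↔ ∀ p ∈ P, (T \ Z p).encard ≤ σ := by
  rw [core_eq_empty_iff]
  exact forall_congr' fun x => miss_avoid_iff hP hZ hσ hT x

theorem core_sum_avoid_iff {X₁ P₁ X₂ P₂ : Set U} {Z₁ Z₂ : U → Set U} (hP₁ : P₁ ⊆ X₁) (hP₂ : P₂ ⊆ X₂)
    (hZ₁ : ∀ p ∈ P₁, Z₁ p ⊆ X₁ ∧ p ∉ Z₁ p ∧ ∀ p' ∈ P₁, p' ≠ p → p' ∈ Z₁ p)
    (hZ₂ : ∀ p ∈ P₂, Z₂ p ⊆ X₂ ∧ p ∉ Z₂ p ∧ ∀ p' ∈ P₂, p' ≠ p → p' ∈ Z₂ p)
    {σ : ℕ} (hσ : 1 ≤ σ) {T : Set U} (hT : T ⊆ X₁ ∪ X₂) :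
    core (alignedSum X₁ (avoid X₁ P₁ Z₁) X₂ (avoid X₂ P₂ Z₂)) σ T = ∅ ↔
      ∀ x ∈ X₁ ∪ X₂, (x ∈ X₁ ∧ (x ∈ P₁ → ((T ∩ X₁) \ Z₁ x).encard ≤ σ)) ∨
        (x ∈ X₂ ∧ (x ∈ P₂ → ((T ∩ X₂) \ Z₂ x).encard ≤ σ)) := by
  rw [core_sum_eq_empty_iff (avoid_aligned Z₁ hP₁) (avoid_aligned Z₂ hP₂) hT]
  refine forall_congr' fun x => forall_congr' fun _ => or_congr (and_congr Iff.rfl ?_) (and_congr Iff.rfl ?_)
  · exact miss_avoid_iff hP₁ hZ₁ hσ Set.inter_subset_right x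
  · exact miss_avoid_iff hP₂ hZ₂ hσ Set.inter_subset_right x

/-- The space in which only one point can lie in a core. -/
theorem helly_single {X S : Set U} {p : U} (hp : p ∈ X) (hS : S ⊆ X) (hpS : p ∉ S) {σ : ℕ} (hσ : 1 ≤ σ)
    (hcard : (σ : ℕ∞) ≤ (X \ S).encard) : helly X (avoid X {p} fun _ => S) σ = S.encard + σ := by
  have hP : ({p} : Set U) ⊆ X := by simpa using hp
  have hZ : ∀ q ∈ ({p} : Set U), S ⊆ X ∧ q ∉ S ∧ ∀ p' ∈ ({p} : Set U), p' ≠ q → p' ∈ S := by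
    rintro q rfl
    exact ⟨hS, hpS, fun p' hp' hne => absurd hp' hne⟩
  have h0 := (avoid_aligned (fun _ => S) hP).empty_mem
  refine le_antisymm ?_ ?_
  · refine helly_le h0 fun T hT _ hc => ?_
    rw [core_avoid_iff hP hZ hσ hT] at hc
    have h1 := hc p rfl
    rw [← Set.encard_sdiff_add_encard_inter T S, add_comm]
    gcongr
    exact Set.inter_subset_right
  · refine le_helly_of_infinite h0 fun n hn => ?_
    obtain ⟨V, hV, hVc⟩ := exists_subset_encard hcard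
    have h1 : (S ∪ V).encard = S.encard + σ := by
      rw [Set.encard_union_eq, hVc]
      rw [Set.disjoint_left]
      intro x hx hxV
      exact (hV hxV).2 hx
    obtain ⟨T, hT, hTc⟩ := exists_subset_encard (S := S ∪ V) (n := n) (by rw [h1]; exact hn)
    have hTX : T ⊆ X := hT.trans (Set.union_subset hS (hV.trans Set.sdiff_subset))
    refine ⟨T, hTX, hTc, ?_⟩
    rw [core_avoid_iff hP hZ hσ hTX]
    intro q _
    have h2 : T \ S ⊆ V := by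
      rintro x ⟨hx, hxS⟩
      exact (hT hx).resolve_left hxS
    exact (Set.encard_le_encard h2).trans hVc.le

/-- The free space. -/
theorem helly_free (X : Set U) (Z : U → Set U) {σ : ℕ} (hσ : 1 ≤ σ) : helly X (avoid X ∅ Z) σ = X.encard := by
  have h0 := (avoid_aligned Z (Set.empty_subset X)).empty_mem
  refine le_antisymm (helly_le_encard h0 σ) ?_
  refine le_helly_of_infinite h0 fun n hn => ?_
  obtain ⟨T, hT, hc⟩ := exists_subset_encard hn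
  refine ⟨T, hT, hc, ?_⟩
  rw [core_avoid_iff (Set.empty_subset X) (fun p hp => absurd hp (Set.notMem_empty p)) hσ hT]
  intro p hp
  exact absurd hp (Set.notMem_empty p)

end Pool.Agent.Helper18_Helly
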