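import Pool.Agent.Helper18_Helly.Examples

set_option autoImplicit false

namespace Pool.Agent.Helper18_Helly

universe u

open Classical in
/-- The upper bound in the main example, in terms of finite sets. -/
theorem count_main {σ x c : ℕ} (hx : 1 ≤ x) (hc : σ ≤ x * c) (T : Finset Pt.{u}) (A Q X₁ X₂ : Set Pt.{u})
    (hcov : ∀ y ∈ T, y = Pt.p ∨ y ∈ X₂) (hpX : Pt.p ∈ X₁) (hpA : Pt.p ∉ A)
    (hFX : ∀ i < x, sF i ((c + 1 : ℕ) : ℕ∞) ⊆ X₁ \ A)
    (hQ : ∀ i < x, (T.filter (fun y => y ∈ Q \ {Pt.q i})).card ≤ x - 1)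
    (h1 : (T.filter (fun y => y ∈ X₁ \ A)).card ≤ σ)
    (h2 : ∀ i < x, (T.filter (fun y => y ∈ X₂ \ (sF i ((c + 1 : ℕ) : ℕ∞) ∪ (Q \ {Pt.q i})))).card ≤ σ) :
    T.card + 1 ≤ σ + x + c := by
  by_contra hcon
  have hT : σ + x + c ≤ T.card := by omega
  set ε := (T.filter (fun y => y = Pt.p)).card with hε
  have hε1 : ε ≤ 1 := by
    rw [hε, Finset.card_le_one_iff]
    intro a b ha hb
    rw [Finset.mem_filter] at ha hb
    rw [ha.2, hb.2]
  have ht : ∀ i < x, c + 1 ≤ (T.filter (fun y => y ∈ sF i ((c + 1 : ℕ) : ℕ∞))).card + ε := by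
    intro i hi
    have h3 : T ⊆ (T.filter (fun y => y ∈ X₂ \ (sF i ((c + 1 : ℕ) : ℕ∞) ∪ (Q \ {Pt.q i})))) ∪
        ((T.filter (fun y => y ∈ sF i ((c + 1 : ℕ) : ℕ∞))) ∪ ((T.filter (fun y => y ∈ Q \ {Pt.q i})) ∪
        (T.filter (fun y => y = Pt.p)))) := by
      intro y hy
      simp only [Finset.mem_union, Finset.mem_filter, hy, true_and]
      rcases hcov y hy with h | h
      · exact Or.inr (Or.inr (Or.inr h))
      · by_cases h4 : y ∈ sF i ((c + 1 : ℕ) : ℕ∞)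
        · exact Or.inr (Or.inl h4)
        · by_cases h5 : y ∈ Q \ {Pt.q i}
          · exact Or.inr (Or.inr (Or.inl h5))
          · left
            refine ⟨h, ?_⟩
            rintro (h6 | h6)
            · exact h4 h6
            · exact h5 h6
    have h4 := (Finset.card_le_card h3).trans (Finset.card_union_le _ _)
    have h5 := Finset.card_union_le (T.filter (fun y => y ∈ sF i ((c + 1 : ℕ) : ℕ∞)))
      ((T.filter (fun y => y ∈ Q \ {Pt.q i})) ∪ (T.filter (fun y => y = Pt.p)))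
    have h6 := Finset.card_union_le (T.filter (fun y => y ∈ Q \ {Pt.q i})) (T.filter (fun y => y = Pt.p))
    have h7 := h2 i hi
    have h8 := hQ i hi
    omega
  have hsum : (∑ i ∈ Finset.range x, (T.filter (fun y => y ∈ sF i ((c + 1 : ℕ) : ℕ∞))).card) + ε ≤ σ := by
    refine le_trans ?_ h1
    rw [← Finset.card_biUnion, hε, ← Finset.card_union_of_disjoint]
    · refine Finset.card_le_card ?_
      intro y hy
      simp only [Finset.mem_union, Finset.mem_biUnion, Finset.mem_filter, Finset.mem_range] at hy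
      rw [Finset.mem_filter]
      rcases hy with ⟨i, hi, hyT, hy⟩ | ⟨hyT, rfl⟩
      · exact ⟨hyT, hFX i hi hy⟩
      · exact ⟨hyT, hpX, hpA⟩
    · rw [Finset.disjoint_left]
      intro y hy hy'
      simp only [Finset.mem_biUnion, Finset.mem_filter, Finset.mem_range] at hy hy'
      obtain ⟨i, -, -, hy⟩ := hy
      rw [hy'.2] at hy
      simp at hy
    · intro i _ i' _ hne
      rw [Function.onFun, Finset.disjoint_left]
      intro y hy hy'
      rw [Finset.mem_filter] at hy hy'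
      obtain ⟨n, -, h3⟩ := hy.2
      obtain ⟨n', -, h4⟩ := hy'.2
      rw [← h4] at h3
      cases h3
      exact hne rfl
  rcases Nat.eq_zero_or_pos ε with h0 | h0
  · have h3 : ∑ i ∈ Finset.range x, (c + 1) ≤
        ∑ i ∈ Finset.range x, (T.filter (fun y => y ∈ sF i ((c + 1 : ℕ) : ℕ∞))).card := by
      refine Finset.sum_le_sum fun i hi => ?_
      have := ht i (Finset.mem_range.1 hi)
      omega
    rw [Finset.sum_const, Finset.card_range, smul_eq_mul] at h3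
    have h4 : x * (c + 1) = x * c + x := by ring
    omega
  · have h3 : ∑ i ∈ Finset.range x, c ≤
        ∑ i ∈ Finset.range x, (T.filter (fun y => y ∈ sF i ((c + 1 : ℕ) : ℕ∞))).card := by
      refine Finset.sum_le_sum fun i hi => ?_
      have := ht i (Finset.mem_range.1 hi)
      omega
    rw [Finset.sum_const, Finset.card_range, smul_eq_mul] at h3
    omega

theorem mem_sF_iff {i m : ℕ} {y : Pt.{u}} : y ∈ sF i (m : ℕ∞) ↔ ∃ n < m, y = Pt.f i n := by
  constructor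
  · rintro ⟨n, hn, rfl⟩
    exact ⟨n, by exact_mod_cast hn, rfl⟩
  · rintro ⟨n, hn, rfl⟩
    exact ⟨n, by exact_mod_cast hn, rfl⟩

theorem encard_prod (s : Finset ℕ) (m : ℕ) :
    {y : Pt.{u} | ∃ i ∈ s, y ∈ sF i (m : ℕ∞)}.encard = ((s.card * m : ℕ) : ℕ∞) := by
  have e : {y : Pt.{u} | ∃ i ∈ s, y ∈ sF i (m : ℕ∞)} = (fun z : ℕ × ℕ => Pt.f.{u} z.1 z.2) '' ((s ×ˢ Finset.range m : Finset (ℕ × ℕ)) : Set (ℕ × ℕ)) := by
    ext y
    simp only [mem_sF_iff, Set.mem_ofPred_eq, Set.mem_image, Finset.coe_product, Set.mem_prod, Finset.mem_coe,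
      Finset.coe_range, Set.mem_Iio, Prod.exists]
    constructor
    · rintro ⟨i, hi, n, hn, rfl⟩
      exact ⟨i, n, ⟨hi, hn⟩, rfl⟩
    · rintro ⟨i, n, ⟨hi, hn⟩, rfl⟩
      exact ⟨i, hi, n, hn, rfl⟩
  rw [e, Function.Injective.encard_image, Set.encard_coe_eq_coe_finsetCard, Finset.card_product, Finset.card_range]
  rintro ⟨i, n⟩ ⟨i', n'⟩ h
  cases h
  rfl

theorem encard_qs (s : Finset ℕ) : {y : Pt.{u} | ∃ i ∈ s, y = Pt.q i}.encard = (s.card : ℕ∞) := by
  have e : {y : Pt.{u} | ∃ i ∈ s, y = Pt.q i} = Pt.q '' (s : Set ℕ) := by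
    ext y
    simp only [Set.mem_ofPred_eq, Set.mem_image, Finset.mem_coe]
    exact ⟨fun ⟨i, hi, h⟩ => ⟨i, hi, h.symm⟩, fun ⟨i, hi, h⟩ => ⟨i, hi, h.symm⟩⟩
  rw [e, Function.Injective.encard_image (fun x y h => by cases h; rfl), Set.encard_coe_eq_coe_finsetCard]

/-- The blocks used in the main example. -/
def ZZ (x c : ℕ) : Pt.{u} → Set Pt.{u}
  | Pt.q i => sF i ((c + 1 : ℕ) : ℕ∞) ∪ ({y : Pt.{u} | ∃ i ∈ Finset.range x, y = Pt.q i} \ {Pt.q i})
  | _ => ∅

theorem encard_ZZ {x c i : ℕ} (hi : i < x) : (ZZ.{u} x c (Pt.q i)).encard ≤ ((x + c : ℕ) : ℕ∞) := by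
  have e : ({y : Pt.{u} | ∃ i ∈ Finset.range x, y = Pt.q i} \ {Pt.q i} : Set Pt.{u}) =
      {y : Pt.{u} | ∃ k ∈ (Finset.range x).erase i, y = Pt.q k} := by
    ext y
    simp only [Set.mem_sdiff, Set.mem_ofPred_eq, Set.mem_singleton_iff, Finset.mem_erase, Finset.mem_range]
    constructor
    · rintro ⟨⟨k, hk, rfl⟩, hne⟩
      exact ⟨k, ⟨fun h => hne (by rw [h]), hk⟩, rfl⟩
    · rintro ⟨k, ⟨hne, hk⟩, rfl⟩
      exact ⟨⟨k, hk, rfl⟩, fun h => hne (by cases h; rfl)⟩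
  refine (Set.encard_union_le _ _).trans ?_
  rw [encard_sF, e, encard_qs, Finset.card_erase_of_mem (Finset.mem_range.2 hi), Finset.card_range]
  exact_mod_cast (by omega : c + 1 + (x - 1) ≤ x + c)

open Classical in
/-- The main example. -/
theorem value_sqrt {σ x c : ℕ} (hx : 1 ≤ x) (hc : σ ≤ x * c) (hmin : (x - 1) * (c + 1) + 1 ≤ σ)
    (hlow : ∀ a b : ℕ, a + b + 1 = x + c → a * b + 1 ≤ σ) {n₁ : ℕ∞}
    (h1 : ((σ + (x + c) : ℕ) : ℕ∞) ≤ n₁) :
    IsValue.{u} σ n₁ ((σ + (x + c) : ℕ) : ℕ∞) ((σ + (x + c - 1) : ℕ) : ℕ∞) := by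
  have hσ : 1 ≤ σ := by omega
  have hσn1 : (σ : ℕ∞) ≤ n₁ := le_trans (by exact_mod_cast (by omega : σ ≤ σ + (x + c))) h1
  set A := sA.{u} (n₁ - σ) with hA
  set F := {y : Pt.{u} | ∃ i ∈ Finset.range x, y ∈ sF i ((c + 1 : ℕ) : ℕ∞)} with hF
  set W := sW.{u} ((σ - 1 - (x - 1) * (c + 1) : ℕ) : ℕ∞) with hW
  set Q := {y : Pt.{u} | ∃ i ∈ Finset.range x, y = Pt.q i} with hQ
  set X₁ := insert Pt.p.{u} (A ∪ (F ∪ W)) with hX₁
  set X₂ := (A ∪ (F ∪ W)) ∪ Q with hX₂
  have hAX₁ : A ⊆ X₁ := Set.subset_union_left.trans (Set.subset_insert _ _)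
  have hQX₂ : Q ⊆ X₂ := Set.subset_union_right
  have hp : ({Pt.p.{u}} : Set Pt.{u}) ⊆ X₁ := by
    rw [Set.singleton_subset_iff]; exact Set.mem_insert _ _
  have hpA : Pt.p ∉ A := by simp [hA]
  have hFA : ∀ y ∈ F, y ∉ A := by
    rintro y ⟨i, -, hy⟩
    obtain ⟨n, -, rfl⟩ := mem_sF_iff.1 hy
    simp [hA]
  have hWA : ∀ y ∈ W, y ∉ A := by
    rintro _ ⟨n, -, rfl⟩
    simp [hA]
  have hFW : Disjoint F W := by
    rw [Set.disjoint_left]
    rintro y ⟨i, -, hy⟩
    obtain ⟨n, -, rfl⟩ := mem_sF_iff.1 hy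
    simp [hW]
  have hZ₂ : ∀ z ∈ Q, ZZ x c z ⊆ X₂ ∧ z ∉ ZZ x c z ∧ ∀ z' ∈ Q, z' ≠ z → z' ∈ ZZ x c z := by
    rintro z ⟨i, hi, rfl⟩
    refine ⟨?_, ?_, ?_⟩
    · rintro y (hy | hy)
      · exact Or.inl (Or.inr (Or.inl ⟨i, hi, hy⟩))
      · exact Or.inr hy.1
    · rintro (hy | hy)
      · simp at hy
      · exact hy.2 rfl
    · intro p' hp' hne
      exact Or.inr ⟨hp', hne⟩
  have hcF : F.encard = ((x * (c + 1) : ℕ) : ℕ∞) := by
    rw [hF, encard_prod, Finset.card_range]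
  have hcW : W.encard = ((σ - 1 - (x - 1) * (c + 1) : ℕ) : ℕ∞) := encard_sW _
  have hcQ : Q.encard = (x : ℕ∞) := by
    rw [hQ, encard_qs, Finset.card_range]
  have harith : x * (c + 1) = (x - 1) * (c + 1) + (c + 1) := by
    obtain ⟨m, rfl⟩ := Nat.exists_eq_add_of_le' hx
    simp only [Nat.add_sub_cancel]
    ring
  -- the first number
  have hH1 : helly X₁ (avoid X₁ {Pt.p.{u}} fun _ => A) σ = n₁ := by
    rw [helly_single (Set.mem_insert _ _) hAX₁ hpA hσ, encard_sA, tsub_add_cancel_of_le hσn1]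
    have h3 : F ∪ W ⊆ X₁ \ A := by
      rintro y (hy | hy)
      · exact ⟨Set.mem_insert_of_mem _ (Or.inr (Or.inl hy)), hFA y hy⟩
      · exact ⟨Set.mem_insert_of_mem _ (Or.inr (Or.inr hy)), hWA y hy⟩
    refine le_trans ?_ (Set.encard_le_encard h3)
    rw [Set.encard_union_eq hFW, hcF, hcW]
    exact_mod_cast (by omega : σ ≤ x * (c + 1) + (σ - 1 - (x - 1) * (c + 1)))
  -- the second number
  have hH2 : helly X₂ (avoid X₂ Q (ZZ x c)) σ = ((σ + (x + c) : ℕ) : ℕ∞) := by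
    have h0 := (avoid_aligned (ZZ x c) hQX₂).empty_mem
    refine le_antisymm ?_ ?_
    · refine helly_le h0 fun T hT _ hco => ?_
      rw [core_avoid_iff hQX₂ hZ₂ hσ hT] at hco
      have h3 := hco (Pt.q 0) ⟨0, Finset.mem_range.2 (by omega), rfl⟩
      rw [← Set.encard_sdiff_add_encard_inter T (ZZ x c (Pt.q 0))]
      have h4 : (T ∩ ZZ x c (Pt.q 0)).encard ≤ ((x + c : ℕ) : ℕ∞) :=
        (Set.encard_le_encard Set.inter_subset_right).trans (encard_ZZ (by omega))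
      refine (add_le_add h3 h4).trans ?_
      exact_mod_cast le_rfl
    · refine (le_helly_iff h0).2 ⟨Q ∪ (F ∪ W), ?_, ?_, ?_⟩
      · refine Set.union_subset hQX₂ ?_
        intro y hy
        exact Or.inl (Or.inr hy)
      · rw [Set.encard_union_eq, Set.encard_union_eq hFW, hcF, hcW, hcQ]
        · exact_mod_cast (by omega : x + (x * (c + 1) + (σ - 1 - (x - 1) * (c + 1))) = σ + (x + c))
        · rw [Set.disjoint_left]
          rintro y ⟨i, -, rfl⟩ (⟨k, -, hy⟩ | hy)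
          · simp at hy
          · simp [hW] at hy
      · rw [core_avoid_iff hQX₂ hZ₂ hσ (Set.union_subset hQX₂ (fun y hy => Or.inl (Or.inr hy)))]
        rintro _ ⟨i, hi, rfl⟩
        have h3 : (Q ∪ (F ∪ W)) \ ZZ x c (Pt.q i) ⊆ {Pt.q i} ∪
            ({y : Pt.{u} | ∃ k ∈ (Finset.range x).erase i, y ∈ sF k ((c + 1 : ℕ) : ℕ∞)} ∪ W) := by
          rintro y ⟨hy | hy | hy, hyZ⟩
          · left
            by_contra hne
            exact hyZ (Or.inr ⟨hy, hne⟩)
          · right; left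
            obtain ⟨k, hk, hyk⟩ := hy
            refine ⟨k, Finset.mem_erase.2 ⟨?_, hk⟩, hyk⟩
            rintro rfl
            exact hyZ (Or.inl hyk)
          · right; right
            exact hy
        refine (Set.encard_le_encard h3).trans ((Set.encard_union_le _ _).trans ?_)
        refine (add_le_add le_rfl (Set.encard_union_le _ _)).trans ?_
        rw [Set.encard_singleton, encard_prod, hcW, Finset.card_erase_of_mem hi, Finset.card_range]
        exact_mod_cast (by omega : 1 + ((x - 1) * (c + 1) + (σ - 1 - (x - 1) * (c + 1))) ≤ σ)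
  refine ⟨Pt.{u}, X₁, X₂, avoid X₁ {Pt.p.{u}} fun _ => A, avoid X₂ Q (ZZ x c), avoid_aligned _ hp,
    avoid_aligned _ hQX₂, hH1, hH2, ?_⟩
  have h0 := empty_mem_alignedSum (X₁ := X₁) (X₂ := X₂) (avoid_aligned (fun _ => A) hp).empty_mem
      (avoid_aligned (ZZ x c) hQX₂).empty_mem
  refine le_antisymm ?_ ?_
  · refine helly_le h0 fun T hT hTfin hco => ?_
    rw [core_sum_avoid_iff hp hQX₂ (single_special hAX₁ hpA) hZ₂ hσ hT] at hco
    have h3 : ((T ∩ X₁) \ A).encard ≤ σ := by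
      rcases hco Pt.p (Or.inl (Set.mem_insert _ _)) with ⟨-, h3⟩ | ⟨h3, -⟩
      · exact h3 rfl
      · exfalso
        rcases h3 with (h3 | ⟨i, -, h3⟩ | h3) | ⟨i, -, h3⟩
        · exact hpA h3
        · simp at h3
        · simp [hW] at h3
        · cases h3
    have h4 : ∀ i < x, ((T ∩ X₂) \ ZZ x c (Pt.q i)).encard ≤ σ := by
      intro i hi
      have hqi : Pt.q i ∈ Q := ⟨i, Finset.mem_range.2 hi, rfl⟩
      rcases hco (Pt.q i) (Or.inr (hQX₂ hqi)) with ⟨h5, -⟩ | ⟨-, h5⟩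
      · exfalso
        rcases h5 with h5 | (h5 | ⟨k, -, h5⟩ | h5)
        · cases h5
        · simp [hA] at h5
        · simp at h5
        · simp [hW] at h5
      · exact h5 hqi
    lift T to Finset Pt.{u} using hTfin
    rw [Set.encard_coe_eq_coe_finsetCard]
    have key := count_main (T := T) (A := A) (Q := Q) (X₁ := X₁) (X₂ := X₂) hx hc ?_ (Set.mem_insert _ _) hpA
      ?_ ?_ ?_ ?_
    · exact_mod_cast (by omega : T.card ≤ σ + (x + c - 1))
    · intro y hy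
      rcases hT hy with (h5 | h5) | h5
      · exact Or.inl h5
      · exact Or.inr (Or.inl h5)
      · exact Or.inr h5
    · intro i hi y hy
      exact ⟨Set.mem_insert_of_mem _ (Or.inr (Or.inl ⟨i, Finset.mem_range.2 hi, hy⟩)),
        hFA y ⟨i, Finset.mem_range.2 hi, hy⟩⟩
    · intro i hi
      have h5 : ((T.filter (fun y => y ∈ Q \ {Pt.q i}) : Finset Pt.{u}) : Set Pt.{u}) ⊆
          {y : Pt.{u} | ∃ k ∈ (Finset.range x).erase i, y = Pt.q k} := by
        intro y hy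
        simp only [Finset.coe_filter, Set.mem_ofPred_eq] at hy
        obtain ⟨-, ⟨k, hk, rfl⟩, hne⟩ := hy
        exact ⟨k, Finset.mem_erase.2 ⟨fun h => hne (by rw [h]; rfl), hk⟩, rfl⟩
      have h6 := Set.encard_le_encard h5
      rw [Set.encard_coe_eq_coe_finsetCard, encard_qs, Finset.card_erase_of_mem (Finset.mem_range.2 hi),
        Finset.card_range] at h6
      have h7 : (T.filter (fun y => y ∈ Q \ {Pt.q i})).card ≤ x - 1 := by exact_mod_cast h6
      convert h7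
    · have h5 : ((T.filter (fun y => y ∈ X₁ \ A) : Finset Pt.{u}) : Set Pt.{u}) ⊆ ((T : Set Pt.{u}) ∩ X₁) \ A := by
        intro y hy
        simp only [Finset.coe_filter, Set.mem_ofPred_eq] at hy
        exact ⟨⟨hy.1, hy.2.1⟩, hy.2.2⟩
      have h6 := (Set.encard_le_encard h5).trans h3
      rw [Set.encard_coe_eq_coe_finsetCard] at h6
      have h7 : (T.filter (fun y => y ∈ X₁ \ A)).card ≤ σ := by exact_mod_cast h6
      convert h7
    · intro i hi
      have h5 : ((T.filter (fun y => y ∈ X₂ \ (sF i ((c + 1 : ℕ) : ℕ∞) ∪ (Q \ {Pt.q i}))) : Finset Pt.{u}) : Set Pt.{u}) ⊆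
          ((T : Set Pt.{u}) ∩ X₂) \ ZZ x c (Pt.q i) := by
        intro y hy
        simp only [Finset.coe_filter, Set.mem_ofPred_eq] at hy
        exact ⟨⟨hy.1, hy.2.1⟩, hy.2.2⟩
      have h6 := (Set.encard_le_encard h5).trans (h4 i hi)
      rw [Set.encard_coe_eq_coe_finsetCard] at h6
      have h7 : (T.filter (fun y => y ∈ X₂ \ (sF i ((c + 1 : ℕ) : ℕ∞) ∪ (Q \ {Pt.q i})))).card ≤ σ := by
        exact_mod_cast h6
      convert h7
  · refine lower_small (avoid_aligned _ hp) (avoid_aligned _ hQX₂) ?_ ?_ ?_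
    · intro a b hab
      exact hlow a b (by omega)
    · rw [hH1]
      exact le_trans (by exact_mod_cast (by omega : σ + (x + c - 1) ≤ σ + (x + c))) h1
    · rw [hH2]
      exact_mod_cast (by omega : σ + (x + c - 1) ≤ σ + (x + c))

end Pool.Agent.Helper18_Helly
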